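import Pool.Agent.T2H08.KC.Stm

set_option autoImplicit false

namespace Pool.Agent.T2H08.KC

open Finset Pool.Agent.H362R2.CM Filter Topology

theorem pCPY : S_CPY := by
  classical
  intro n t G
  unfold num kc
  symm
  have hcl : ∀ s : Finset (Fin n), G.IsNClique t s →
      Nonempty (((⊤ : G.Subgraph).induce (s : Set (Fin n))).coe ≃g (⊤ : SimpleGraph (Fin t))) := by
    intro s hs
    have e : s ≃ Fin t := s.equivFinOfCardEq hs.card_eq
    let e' : ((⊤ : G.Subgraph).induce (s : Set (Fin n))).verts ≃ Fin t :=
      (Equiv.subtypeEquivRight (by intro x; simp)).trans e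
    refine ⟨⟨e', ?_⟩⟩
    intro a b
    rw [SimpleGraph.top_adj, SimpleGraph.Subgraph.coe_adj, SimpleGraph.Subgraph.induce_adj]
    have ha : a.1 ∈ (s : Set (Fin n)) := a.2
    have hb : b.1 ∈ (s : Set (Fin n)) := b.2
    constructor
    · intro h
      refine ⟨ha, hb, ?_⟩
      rw [SimpleGraph.Subgraph.top_adj]
      apply hs.isClique ha hb
      intro hab
      exact h (congrArg e' (Subtype.ext hab))
    · rintro ⟨_, _, h⟩ hab
      have := e'.injective hab
      rw [SimpleGraph.Subgraph.top_adj, this] at h
      exact G.irrefl h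
  apply Nat.card_eq_of_bijective
    (fun s : {s : Finset (Fin n) // G.IsNClique t s} =>
      (⟨(⊤ : G.Subgraph).induce (s.1 : Set (Fin n)), hcl s.1 s.2⟩ :
        {K : G.Subgraph // Nonempty (K.coe ≃g (⊤ : SimpleGraph (Fin t)))}))
  constructor
  · intro s s' h
    apply Subtype.ext
    have h1 := congrArg (fun K => K.1.verts) h
    simp only [SimpleGraph.Subgraph.induce_verts] at h1
    exact_mod_cast h1
  · rintro ⟨K, ⟨φ⟩⟩
    have hadj : ∀ a b, a ∈ K.verts → b ∈ K.verts → a ≠ b → K.Adj a b := by
      intro a b ha hb hab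
      have h1 : (⊤ : SimpleGraph (Fin t)).Adj (φ ⟨a, ha⟩) (φ ⟨b, hb⟩) := by
        rw [SimpleGraph.top_adj]
        intro h
        exact hab (congrArg Subtype.val (φ.injective h))
      have h2 := φ.map_rel_iff.1 h1
      exact h2
    let s : Finset (Fin n) := K.verts.toFinset
    have hs : G.IsNClique t s := by
      rw [SimpleGraph.isNClique_iff]
      constructor
      · intro a ha b hb hab
        simp only [s, Set.coe_toFinset] at ha hb
        exact K.adj_sub (hadj a b ha hb hab)
      · have h1 : Fintype.card K.verts = t := by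
          rw [Fintype.card_congr φ.toEquiv, Fintype.card_fin]
        simp only [s]
        rw [Set.toFinset_card]
        convert h1
    refine ⟨⟨s, hs⟩, ?_⟩
    apply Subtype.ext
    simp only
    apply SimpleGraph.Subgraph.ext
    · simp [s]
    · funext a b
      simp only [SimpleGraph.Subgraph.induce_adj, SimpleGraph.Subgraph.top_adj, eq_iff_iff, s,
        Set.coe_toFinset]
      constructor
      · rintro ⟨ha, hb, hab⟩
        exact hadj a b ha hb hab.ne
      · intro hab
        exact ⟨K.edge_vert hab, K.edge_vert hab.symm, K.adj_sub hab⟩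

end Pool.Agent.T2H08.KC
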