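import Pool.Agent.T2H08.KC.Stm

set_option autoImplicit false

namespace Pool.Agent.T2H08.KC

open Finset Pool.Agent.H362R2.CM Filter Topology

theorem pLNK : S_LNK := by
  classical
  intro n s G
  rw [Finset.card_eq_sum_card_fiberwise (f := fun f : Fin (s + 1) → Fin n => f 0) (t := univ)
    (fun _ _ => mem_univ _)]
  apply Finset.sum_congr rfl
  intro v _
  apply Finset.card_nbij' (fun f => Fin.tail f) (fun g => Fin.cons v g)
  · intro f hf
    simp only [coe_filter, Set.mem_setOf_eq, mem_clq, mem_univ, implies_true, true_and] at hf
    simp only [mem_coe, mem_clq, mem_filter, mem_univ, true_and]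
    obtain ⟨h1, h2⟩ := hf
    refine ⟨fun i => ?_, fun i j hij => h1 _ _ (fun h => hij (Fin.succ_injective _ h))⟩
    rw [← h2]
    exact h1 0 i.succ (Fin.succ_ne_zero i).symm
  · intro g hg
    simp only [mem_coe, mem_clq, mem_filter, mem_univ, true_and] at hg
    simp only [coe_filter, Set.mem_setOf_eq, mem_clq, mem_univ, implies_true, true_and, Fin.cons_zero,
      and_true]
    obtain ⟨h1, h2⟩ := hg
    intro i j hij
    induction i using Fin.cases with
    | zero =>
      induction j using Fin.cases with
      | zero => exact absurd rfl hij
      | succ j => simpa using h1 j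
    | succ i =>
      induction j using Fin.cases with
      | zero => simpa using (h1 i).symm
      | succ j =>
        simp only [Fin.cons_succ]
        exact h2 i j (fun h => hij (by rw [h]))
  · intro f hf
    simp only [coe_filter, Set.mem_setOf_eq] at hf
    simp only
    rw [← hf.2]
    exact Fin.cons_self_tail f
  · intro g _
    exact Fin.tail_cons _ _

end Pool.Agent.T2H08.KC
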