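import Pool.Agent.T2H08.KC.Stm

set_option autoImplicit false

namespace Pool.Agent.T2H08.KC

open Finset Pool.Agent.H362R2.CM Filter Topology

theorem pORD : S_ORD := by
  classical
  intro n s G
  have hkc : kc G s = ((univ : Finset (Finset (Fin n))).filter (fun S => G.IsNClique s S)).card := by
    unfold kc
    rw [Nat.card_eq_fintype_card, Fintype.card_subtype]
  have hinj : ∀ f : Fin s → Fin n, (∀ i j, i ≠ j → G.Adj (f i) (f j)) → Function.Injective f := by
    intro f hf i j hij
    by_contra hne
    have := hf i j hne
    rw [hij] at this
    exact G.irrefl this
  rw [hkc, mul_comm]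
  rw [Finset.card_eq_sum_card_fiberwise (f := fun f : Fin s → Fin n => univ.image f)
    (t := (univ : Finset (Finset (Fin n))).filter (fun S => G.IsNClique s S))]
  · rw [Finset.sum_const_nat]
    intro S hS
    simp only [mem_filter, mem_univ, true_and] at hS
    have hcard : Fintype.card (Fin s ≃ S) = s.factorial := by
      have e : Fin s ≃ S := (S.equivFinOfCardEq hS.card_eq).symm
      rw [Fintype.card_equiv e, Fintype.card_fin]
    rw [← hcard, ← Finset.card_univ]
    symm
    apply Finset.card_bij (fun (e : Fin s ≃ S) _ => fun i => ((e i : S) : Fin n))
    · intro e _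
      simp only [mem_filter, mem_clq, mem_univ, implies_true, true_and]
      constructor
      · intro i j hij
        apply hS.isClique
        · exact (e i).2
        · exact (e j).2
        · intro h
          exact hij (e.injective (Subtype.ext h))
      · ext x
        simp only [mem_image, mem_univ, true_and]
        constructor
        · rintro ⟨i, rfl⟩
          exact (e i).2
        · intro hx
          exact ⟨e.symm ⟨x, hx⟩, by simp⟩
    · intro e₁ _ e₂ _ h
      ext i
      exact congrArg Fin.val (congrFun h i)
    · intro f hf
      simp only [mem_filter, mem_clq, mem_univ, implies_true, true_and] at hf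
      have hfi := hinj f hf.1
      have hfS : ∀ i, f i ∈ S := by
        intro i
        rw [← hf.2]
        exact mem_image_of_mem f (mem_univ i)
      have hb : Function.Bijective (fun i => (⟨f i, hfS i⟩ : S)) := by
        constructor
        · intro i j h
          exact hfi (congrArg Subtype.val h)
        · rintro ⟨x, hx⟩
          rw [← hf.2] at hx
          simp only [mem_image, mem_univ, true_and] at hx
          obtain ⟨i, hi⟩ := hx
          exact ⟨i, Subtype.ext hi⟩
      refine ⟨Equiv.ofBijective _ hb, mem_univ _, ?_⟩
      funext i
      rfl
  · intro f hf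
    rw [mem_coe, mem_clq] at hf
    simp only [coe_filter, mem_univ, true_and, Set.mem_setOf_eq]
    rw [SimpleGraph.isNClique_iff]
    constructor
    · intro x hx y hy hxy
      simp only [coe_image, coe_univ, Set.image_univ, Set.mem_range] at hx hy
      obtain ⟨i, rfl⟩ := hx
      obtain ⟨j, rfl⟩ := hy
      exact hf.2 i j (fun h => hxy (by rw [h]))
    · rw [card_image_of_injective _ (hinj f hf.2), card_univ, Fintype.card_fin]

end Pool.Agent.T2H08.KC
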