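import Pool.Agent.T2H08.KC.Stm

/-! # PRD: the product of the ratio inequalities -/

set_option autoImplicit false

namespace Pool.Agent.T2H08.KC

open Finset Pool.Agent.H362R2.CM Filter Topology

theorem pPRD (hUB : S_UB) : S_PRD := by
  intro n Δ ω u t G hG hu hut htω
  have hcu : (0 : ℝ) < (ω.choose u : ℝ) := by
    exact_mod_cast Nat.choose_pos (hut.trans htω)
  have hω1 : (0 : ℝ) < (ω : ℝ) - 1 := by
    have : (2 : ℝ) ≤ (ω : ℝ) := by exact_mod_cast (hu.trans hut).trans htω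
    linarith
  induction t, hut using Nat.le_induction with
  | base =>
    rw [Nat.sub_self, pow_zero, mul_one, div_self hcu.ne', one_mul]
  | succ t hut ih =>
    have h1 := ih (by omega)
    have h2 := hUB n Δ ω t G hG (by omega) (by omega)
    have h3 : ((ω.choose (t + 1) : ℝ)) * ((t : ℝ) + 1) = (ω.choose t : ℝ) * ((ω : ℝ) - t) := by
      have h := Nat.choose_succ_right_eq ω t
      have h' : ((ω.choose (t + 1) * (t + 1) : ℕ) : ℝ) = ((ω.choose t * (ω - t) : ℕ) : ℝ) := by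
        exact_mod_cast h
      push_cast [Nat.cast_sub (show t ≤ ω by omega)] at h'
      exact h'
    have hsub : t + 1 - u = (t - u) + 1 := by omega
    rw [hsub, pow_succ]
    have ht1 : (0 : ℝ) < (t : ℝ) + 1 := by positivity
    have hωt : (0 : ℝ) ≤ (ω : ℝ) - t := by
      have : (t : ℝ) ≤ ω := by exact_mod_cast (show t ≤ ω by omega)
      linarith
    have hp : (0 : ℝ) < ((t : ℝ) + 1) * ((ω : ℝ) - 1) := mul_pos ht1 hω1
    have h4 : (kc G (t + 1) : ℝ) ≤ ((ω : ℝ) - t) * Δ * (kc G t : ℝ) / (((t : ℝ) + 1) * ((ω : ℝ) - 1)) := by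
      rw [le_div_iff₀ hp]
      linarith
    refine h4.trans ?_
    have h5 : ((ω : ℝ) - t) * Δ * (kc G t : ℝ) / (((t : ℝ) + 1) * ((ω : ℝ) - 1)) ≤
        ((ω : ℝ) - t) * Δ * ((ω.choose t : ℝ) / (ω.choose u : ℝ) * ((Δ : ℝ) / ((ω : ℝ) - 1)) ^ (t - u) *
          (kc G u : ℝ)) / (((t : ℝ) + 1) * ((ω : ℝ) - 1)) := by
      gcongr
    refine h5.trans (le_of_eq ?_)
    have h6 : (ω.choose (t + 1) : ℝ) = (ω.choose t : ℝ) * ((ω : ℝ) - t) / ((t : ℝ) + 1) := by
      rw [← h3]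
      field_simp
    rw [h6]
    field_simp

end Pool.Agent.T2H08.KC
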