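import Pool.Agent.T2H08.KC.Stm

/-! # RAT: ratios of clique numbers -/

set_option autoImplicit false

namespace Pool.Agent.T2H08.KC

open Finset Pool.Agent.H362R2.CM Filter Topology

theorem pRAT : S_RAT := by
  intro α V C hC r hr j hj1 hjr
  -- downward induction: j = r - i
  have key : ∀ i : ℕ, ∀ j : ℕ, 1 ≤ j → j + i = r →
      (r : ℝ) * ((clq V C (j + 1)).card : ℝ) ≤ ((r : ℝ) - j) * (V.card : ℝ) * ((clq V C j).card : ℝ) := by
    intro i
    induction i with
    | zero =>
      intro j hj h
      have hjr : j = r := by omega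
      subst hjr
      rw [hr]
      simp
    | succ i ih =>
      intro s hs h
      have h1 := ih (s + 1) (by omega) (by omega)
      have h2 := moon_moser (V := V) hC s
      set a : ℝ := ((clq V C s).card : ℝ)
      set b : ℝ := ((clq V C (s + 1)).card : ℝ)
      set c : ℝ := ((clq V C (s + 1 + 1)).card : ℝ)
      have h2' : ((s : ℝ) + 1) * b ^ 2 ≤ a * (s * c + V.card * b) := h2
      have ha : 0 ≤ a := Nat.cast_nonneg _
      have hb : 0 ≤ b := Nat.cast_nonneg _
      have hc : 0 ≤ c := Nat.cast_nonneg _
      have hv : (0 : ℝ) ≤ V.card := Nat.cast_nonneg _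
      have hs0 : (0 : ℝ) < (s : ℝ) + 1 := by positivity
      have hs1 : (0 : ℝ) ≤ (s : ℝ) := Nat.cast_nonneg _
      have hrs : (s : ℝ) + 1 + i = r := by
        have : ((s + (i + 1) : ℕ) : ℝ) = r := by exact_mod_cast h
        push_cast at this
        linarith
      have hi : (0 : ℝ) ≤ i := Nat.cast_nonneg _
      have hr0 : (0 : ℝ) < r := by linarith
      push_cast at h1
      rcases hb.eq_or_lt with hb0 | hb0
      · rw [← hb0, mul_zero]
        have : 0 ≤ (r : ℝ) - s := by linarith
        positivity
      · have h3 : (r : ℝ) * (((s : ℝ) + 1) * b ^ 2) ≤ a * V.card * b * (((s : ℝ) + 1) * (r - s)) := by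
          calc (r : ℝ) * (((s : ℝ) + 1) * b ^ 2) ≤ r * (a * (s * c + V.card * b)) :=
                mul_le_mul_of_nonneg_left h2' hr0.le
            _ = a * (s * (r * c) + r * V.card * b) := by ring
            _ ≤ a * (s * (((r : ℝ) - (s + 1)) * V.card * b) + r * V.card * b) := by
                gcongr
            _ = a * V.card * b * (((s : ℝ) + 1) * (r - s)) := by ring
        have h4 : (((s : ℝ) + 1) * b) * ((r : ℝ) * b) ≤ (((s : ℝ) + 1) * b) * ((r - s) * V.card * a) := by
          linarith
        exact le_of_mul_le_mul_left h4 (by positivity)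
  exact key (r - j) j hj1 (by omega)

end Pool.Agent.T2H08.KC
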