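import Pool.Agent.T2H08.KC.Stm

set_option autoImplicit false

namespace Pool.Agent.T2H08.KC

open Finset Pool.Agent.H362R2.CM Filter Topology

namespace PkgTUR

theorem clique_iso {V W : Type} {G : SimpleGraph V} {H : SimpleGraph W} (e : G ≃g H) (j : ℕ) (s : Finset V) :
    G.IsNClique j s ↔ H.IsNClique j (s.map e.toEquiv.toEmbedding) := by
  rw [SimpleGraph.isNClique_iff, SimpleGraph.isNClique_iff, Finset.card_map]
  apply and_congr_left
  intro _
  constructor
  · intro h x hx y hy hxy
    rw [mem_coe, Finset.mem_map] at hx hy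
    obtain ⟨a, ha, rfl⟩ := hx
    obtain ⟨b, hb, rfl⟩ := hy
    have hab : a ≠ b := fun h' => hxy (by rw [h'])
    exact e.map_rel_iff.2 (h ha hb hab)
  · intro h a ha b hb hab
    have h1 := h (x := e a) (mem_coe.2 (Finset.mem_map.2 ⟨a, ha, rfl⟩)) (y := e b) (mem_coe.2 (Finset.mem_map.2 ⟨b, hb, rfl⟩))
      (fun h' => hab (e.toEquiv.injective h'))
    exact e.map_rel_iff.1 h1

theorem kc_iso {V W : Type} {G : SimpleGraph V} {H : SimpleGraph W} (e : G ≃g H) (j : ℕ) : kc G j = kc H j := by
  unfold kc
  exact Nat.card_congr (Equiv.subtypeEquiv (Equiv.finsetCongr e.toEquiv) (fun s => clique_iso e j s))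

theorem adm_iso {V W : Type} {G : SimpleGraph V} {H : SimpleGraph W} (e : G ≃g H) {Δ ω : ℕ} (h : Adm Δ ω G) :
    Adm Δ ω H := by
  constructor
  · intro w
    have h1 := h.1 (e.symm w)
    refine le_trans (le_of_eq ?_) h1
    have h2 := e.mapNeighborSet (e.symm w)
    rw [e.apply_symm_apply] at h2
    exact (Nat.card_congr h2).symm
  · intro s hs
    have h2 := (clique_iso e.symm (ω + 1) s).1 hs
    exact h.2 _ h2

/-- the complete multipartite graph -/
def T (ω q : ℕ) : SimpleGraph (Fin ω × Fin q) where
  Adj x y := x.1 ≠ y.1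
  symm := ⟨fun _ _ h => h.symm⟩
  loopless := ⟨fun _ h => h rfl⟩

theorem fst_inj {ω q j : ℕ} {s : Finset (Fin ω × Fin q)} (hs : (T ω q).IsNClique j s) :
    Set.InjOn Prod.fst (s : Set (Fin ω × Fin q)) := by
  intro x hx y hy h
  by_contra hne
  exact hs.isClique hx hy hne h

theorem kcT (ω q j : ℕ) : kc (T ω q) j = ω.choose j * q ^ j := by
  classical
  unfold kc
  have hcl : ∀ x : (Σ S : {S : Finset (Fin ω) // S.card = j}, (S.1 → Fin q)),
      (T ω q).IsNClique j (x.1.1.attach.image (fun a => (a.1, x.2 a))) := by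
    rintro ⟨⟨S, hS⟩, g⟩
    rw [SimpleGraph.isNClique_iff]
    constructor
    · intro x hx y hy hxy
      simp only [coe_image, Set.mem_image, mem_coe, mem_attach, true_and] at hx hy
      obtain ⟨a, rfl⟩ := hx
      obtain ⟨b, rfl⟩ := hy
      intro h
      apply hxy
      have : a = b := Subtype.ext h
      rw [this]
    · rw [Finset.card_image_of_injective, Finset.card_attach]
      · exact hS
      · intro a b h
        exact Subtype.ext (congrArg Prod.fst h)
  have h1 : Nat.card {s : Finset (Fin ω × Fin q) // (T ω q).IsNClique j s} =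
      Nat.card (Σ S : {S : Finset (Fin ω) // S.card = j}, (S.1 → Fin q)) := by
    symm
    apply Nat.card_eq_of_bijective (fun x => (⟨_, hcl x⟩ :
      {s : Finset (Fin ω × Fin q) // (T ω q).IsNClique j s}))
    constructor
    · rintro ⟨⟨S, hS⟩, g⟩ ⟨⟨S', hS'⟩, g'⟩ h
      have h2 := congrArg Subtype.val h
      simp only at h2
      have h3 : S = S' := by
        have h4 := congrArg (fun s : Finset (Fin ω × Fin q) => s.image Prod.fst) h2
        simp only [Finset.image_image] at h4
        ext a
        have h5 := Finset.ext_iff.1 h4 a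
        simp only [mem_image, mem_attach, Function.comp, true_and, Subtype.exists,
          exists_prop, exists_eq_right] at h5
        exact h5
      subst h3
      have h4 : g = g' := by
        funext a
        have h5 : (a.1, g a) ∈ S.attach.image (fun a => (a.1, g a)) :=
          mem_image.2 ⟨a, mem_attach _ _, rfl⟩
        rw [h2, mem_image] at h5
        obtain ⟨b, _, hb⟩ := h5
        have h6 : b = a := Subtype.ext (congrArg Prod.fst hb)
        have h7 := congrArg Prod.snd hb
        simp only at h7
        rw [h6] at h7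
        exact h7.symm
      rw [h4]
    · rintro ⟨s, hs⟩
      have hinj := fst_inj hs
      have hex : ∀ a : {a // a ∈ s.image Prod.fst}, ∃ b : Fin q, (a.1, b) ∈ s := by
        rintro ⟨a, ha⟩
        rw [mem_image] at ha
        obtain ⟨⟨x, y⟩, hxy, rfl⟩ := ha
        exact ⟨y, hxy⟩
      choose g hg using hex
      have hcard : (s.image Prod.fst).card = j := by
        rw [Finset.card_image_of_injOn hinj, hs.card_eq]
      refine ⟨⟨⟨s.image Prod.fst, hcard⟩, g⟩, ?_⟩
      apply Subtype.ext
      simp only
      apply Finset.eq_of_subset_of_card_le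
      · intro x hx
        rw [mem_image] at hx
        obtain ⟨a, _, rfl⟩ := hx
        exact hg a
      · rw [hs.card_eq, (hcl ⟨⟨s.image Prod.fst, hcard⟩, g⟩).card_eq]
  rw [h1, Nat.card_sigma]
  have h2 : ∀ S : {S : Finset (Fin ω) // S.card = j}, Nat.card (S.1 → Fin q) = q ^ j := by
    rintro ⟨S, hS⟩
    rw [Nat.card_eq_fintype_card, Fintype.card_fun, Fintype.card_fin, Fintype.card_coe, hS]
  rw [Finset.sum_congr rfl (fun S _ => h2 S), Finset.sum_const, smul_eq_mul, Finset.card_univ]
  congr 1
  have h3 : Fintype.card {S : Finset (Fin ω) // S.card = j} = ((univ : Finset (Fin ω)).powersetCard j).card := by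
    rw [Fintype.card_subtype]
    congr 1
    ext S
    simp [mem_powersetCard]
  rw [h3, Finset.card_powersetCard, Finset.card_univ, Fintype.card_fin]

theorem admT (ω q : ℕ) : Adm ((ω - 1) * q) ω (T ω q) := by
  classical
  constructor
  · intro v
    have h1 : Nat.card ((T ω q).neighborSet v) = ((univ : Finset (Fin ω × Fin q)).filter
        (fun x => v.1 ≠ x.1)).card := by
      rw [Nat.card_eq_fintype_card, ← Set.toFinset_card]
      congr 1
      ext x
      rw [Set.mem_toFinset, mem_filter]
      exact ⟨fun h => ⟨mem_univ _, h⟩, fun h => h.2⟩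
    rw [h1]
    have h2 : (univ : Finset (Fin ω × Fin q)).filter (fun x => v.1 ≠ x.1) =
        (univ.erase v.1) ×ˢ (univ : Finset (Fin q)) := by
      ext x
      simp only [mem_filter, mem_univ, true_and, mem_product, mem_erase, and_true]
      exact ne_comm
    rw [h2, card_product, card_erase_of_mem (mem_univ _), card_univ, card_univ, Fintype.card_fin,
      Fintype.card_fin]
  · intro s hs
    have h1 : (s.image Prod.fst).card = ω + 1 := by
      rw [Finset.card_image_of_injOn (fst_inj hs), hs.card_eq]
    have h2 : (s.image Prod.fst).card ≤ ω := by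
      have := Finset.card_le_univ (s.image Prod.fst)
      rwa [Fintype.card_fin] at this
    omega

end PkgTUR

open PkgTUR

theorem pTUR : S_TUR := by
  intro ω q
  let e0 : Fin (ω * q) ≃ Fin ω × Fin q := finProdFinEquiv.symm
  let K : SimpleGraph (Fin (ω * q)) := (T ω q).comap e0
  have e : K ≃g T ω q := SimpleGraph.Iso.comap e0 (T ω q)
  refine ⟨ω * q, K, adm_iso e.symm (admT ω q), fun j => ?_⟩
  rw [kc_iso e, kcT]

end Pool.Agent.T2H08.KC
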