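import Pool.Agent.T2H08.KC.Stm

/-! # UB: the ratio of consecutive clique numbers -/

set_option autoImplicit false

namespace Pool.Agent.T2H08.KC

open Finset Pool.Agent.H362R2.CM Filter Topology

open Classical in
theorem pUB (hORD : S_ORD) (hLNK : S_LNK) (hRAT : S_RAT) : S_UB := by
  intro n Δ ω s G hG hs hsω
  obtain ⟨hdeg, hfree⟩ := hG
  have hkc : kc G (ω + 1) = 0 := by
    haveI : IsEmpty {s : Finset (Fin n) // G.IsNClique (ω + 1) s} := ⟨fun x => hfree x.1 x.2⟩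
    exact Nat.card_of_isEmpty
  have hzero : ∀ v : Fin n, clq (univ.filter (fun w => G.Adj v w)) G.Adj ω = ∅ := by
    have h1 := hLNK n ω G
    rw [hORD n (ω + 1) G, hkc, mul_zero] at h1
    have h2 := (Finset.sum_eq_zero_iff).1 h1.symm
    intro v
    exact Finset.card_eq_zero.1 (h2 v (mem_univ v))
  have hcard : ∀ v : Fin n, ((univ.filter (fun w => G.Adj v w)).card : ℝ) ≤ (Δ : ℝ) := by
    intro v
    have h1 : (univ.filter (fun w => G.Adj v w)).card = Nat.card (G.neighborSet v) := by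
      rw [Nat.card_eq_fintype_card, Fintype.card_subtype]
      rfl
    rw [h1]
    exact_mod_cast hdeg v
  obtain ⟨r, hr⟩ : ∃ r, ω = r + 1 := ⟨ω - 1, by omega⟩
  obtain ⟨j, hj⟩ : ∃ j, s = j + 1 := ⟨s - 1, by omega⟩
  have hstep : ∀ v : Fin n, (r : ℝ) * ((clq (univ.filter (fun w => G.Adj v w)) G.Adj s).card : ℝ) ≤
      ((r : ℝ) - j) * (Δ : ℝ) * ((clq (univ.filter (fun w => G.Adj v w)) G.Adj j).card : ℝ) := by
    intro v
    have hz := hzero v
    rw [hr] at hz
    have h1 := hRAT (Fin n) (univ.filter (fun w => G.Adj v w)) G.Adj (fun x y h => h.symm) r hz j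
      (by omega) (by omega)
    rw [hj]
    refine h1.trans ?_
    have hrj : (0 : ℝ) ≤ (r : ℝ) - j := by
      have : (j : ℝ) ≤ r := by exact_mod_cast (show j ≤ r by omega)
      linarith
    have := hcard v
    gcongr
  have hsum := Finset.sum_le_sum (fun v (_ : v ∈ (univ : Finset (Fin n))) => hstep v)
  rw [← Finset.mul_sum, ← Finset.mul_sum] at hsum
  have e1 : ∑ v : Fin n, ((clq (univ.filter (fun w => G.Adj v w)) G.Adj s).card : ℝ) =
      ((s + 1).factorial : ℝ) * (kc G (s + 1) : ℝ) := by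
    have h := hLNK n s G
    rw [hORD n (s + 1) G] at h
    exact_mod_cast h.symm
  have e2 : ∑ v : Fin n, ((clq (univ.filter (fun w => G.Adj v w)) G.Adj j).card : ℝ) =
      (s.factorial : ℝ) * (kc G s : ℝ) := by
    have h := hLNK n j G
    rw [← hj, hORD n s G] at h
    exact_mod_cast h.symm
  rw [e1, e2, Nat.factorial_succ] at hsum
  push_cast at hsum
  have hf : (0 : ℝ) < (s.factorial : ℝ) := by exact_mod_cast Nat.factorial_pos s
  have hωr : (ω : ℝ) = r + 1 := by rw [hr]; push_cast; ring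
  have hsj : (s : ℝ) = j + 1 := by rw [hj]; push_cast; ring
  have h7 : (s.factorial : ℝ) * (((s : ℝ) + 1) * ((ω : ℝ) - 1) * (kc G (s + 1) : ℝ)) ≤
      (s.factorial : ℝ) * (((ω : ℝ) - s) * (Δ : ℝ) * (kc G s : ℝ)) := by
    calc (s.factorial : ℝ) * (((s : ℝ) + 1) * ((ω : ℝ) - 1) * (kc G (s + 1) : ℝ))
        = (r : ℝ) * (((s : ℝ) + 1) * (s.factorial : ℝ) * (kc G (s + 1) : ℝ)) := by rw [hωr]; ring
      _ ≤ ((r : ℝ) - j) * (Δ : ℝ) * ((s.factorial : ℝ) * (kc G s : ℝ)) := hsum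
      _ = (s.factorial : ℝ) * (((ω : ℝ) - s) * (Δ : ℝ) * (kc G s : ℝ)) := by rw [hωr, hsj]; ring
  exact le_of_mul_le_mul_left h7 hf

end Pool.Agent.T2H08.KC
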