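import Pool.Agent.T2H08.KC.Stm

set_option autoImplicit false

namespace Pool.Agent.T2H08.KC

open Finset Pool.Agent.H362R2.CM Filter Topology

namespace PkgUNI

theorem clique_iso {V W : Type} {G : SimpleGraph V} {H : SimpleGraph W} (e : G ≃g H) (j : ℕ) (s : Finset V) :
    G.IsNClique j s ↔ H.IsNClique j (s.map e.toEquiv.toEmbedding) := by
  rw [SimpleGraph.isNClique_iff, SimpleGraph.isNClique_iff, Finset.card_map]
  apply and_congr_left
  intro _
  constructor
  · intro h x hx y hy hxy
    rw [mem_coe, Finset.mem_map] at hx hy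
    obtain ⟨a, ha, rfl⟩ := hx
    obtain ⟨b, hb, rfl⟩ := hy
    have hab : a ≠ b := fun h' => hxy (by rw [h'])
    exact e.map_rel_iff.2 (h ha hb hab)
  · intro h a ha b hb hab
    have h1 := h (x := e a) (mem_coe.2 (Finset.mem_map.2 ⟨a, ha, rfl⟩)) (y := e b) (mem_coe.2 (Finset.mem_map.2 ⟨b, hb, rfl⟩))
      (fun h' => hab (e.toEquiv.injective h'))
    exact e.map_rel_iff.1 h1

theorem kc_iso {V W : Type} {G : SimpleGraph V} {H : SimpleGraph W} (e : G ≃g H) (j : ℕ) : kc G j = kc H j := by
  unfold kc
  exact Nat.card_congr (Equiv.subtypeEquiv (Equiv.finsetCongr e.toEquiv) (fun s => clique_iso e j s))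

theorem adm_iso {V W : Type} {G : SimpleGraph V} {H : SimpleGraph W} (e : G ≃g H) {Δ ω : ℕ} (h : Adm Δ ω G) :
    Adm Δ ω H := by
  constructor
  · intro w
    have h1 := h.1 (e.symm w)
    refine le_trans (le_of_eq ?_) h1
    have h2 := e.mapNeighborSet (e.symm w)
    rw [e.apply_symm_apply] at h2
    exact (Nat.card_congr h2).symm
  · intro s hs
    have h2 := (clique_iso e.symm (ω + 1) s).1 hs
    exact h.2 _ h2

end PkgUNI

open PkgUNI

theorem pUNI : S_UNI := by
  classical
  intro n m G H
  let S := G ⊕g H
  let K : SimpleGraph (Fin (n + m)) := S.comap finSumFinEquiv.symm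
  have e : K ≃g S := SimpleGraph.Iso.comap finSumFinEquiv.symm S
  -- cliques of the sum
  have hcl : ∀ (j : ℕ) (s : Finset (Fin n ⊕ Fin m)), 1 ≤ j → S.IsNClique j s →
      (∃ a : Finset (Fin n), G.IsNClique j a ∧ a.map ⟨Sum.inl, Sum.inl_injective⟩ = s) ∨
      (∃ b : Finset (Fin m), H.IsNClique j b ∧ b.map ⟨Sum.inr, Sum.inr_injective⟩ = s) := by
    intro j s hj hs
    have hne : s.Nonempty := by
      rw [← Finset.card_pos, hs.card_eq]
      omega
    obtain ⟨x, hx⟩ := hne
    rcases x with x | x
    · left
      have hall : ∀ y ∈ s, ∃ a, y = Sum.inl a := by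
        intro y hy
        rcases y with y | y
        · exact ⟨y, rfl⟩
        · exfalso
          have := hs.isClique hx hy (by simp)
          simp [S] at this
      refine ⟨univ.filter (fun a => Sum.inl a ∈ s), ?_, ?_⟩
      · rw [SimpleGraph.isNClique_iff]
        constructor
        · intro a ha b hb hab
          simp only [coe_filter, mem_univ, true_and, Set.mem_setOf_eq] at ha hb
          have := hs.isClique ha hb (fun h => hab (Sum.inl_injective h))
          simpa [S] using this
        · rw [← hs.card_eq, ← Finset.card_map ⟨Sum.inl, Sum.inl_injective⟩]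
          congr 1
          ext y
          simp only [Finset.mem_map, mem_filter, mem_univ, true_and, Function.Embedding.coeFn_mk]
          constructor
          · rintro ⟨a, ha, rfl⟩
            exact ha
          · intro hy
            obtain ⟨a, rfl⟩ := hall y hy
            exact ⟨a, hy, rfl⟩
      · ext y
        simp only [Finset.mem_map, mem_filter, mem_univ, true_and, Function.Embedding.coeFn_mk]
        constructor
        · rintro ⟨a, ha, rfl⟩
          exact ha
        · intro hy
          obtain ⟨a, rfl⟩ := hall y hy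
          exact ⟨a, hy, rfl⟩
    · right
      have hall : ∀ y ∈ s, ∃ a, y = Sum.inr a := by
        intro y hy
        rcases y with y | y
        · exfalso
          have := hs.isClique hx hy (by simp)
          simp [S] at this
        · exact ⟨y, rfl⟩
      refine ⟨univ.filter (fun a => Sum.inr a ∈ s), ?_, ?_⟩
      · rw [SimpleGraph.isNClique_iff]
        constructor
        · intro a ha b hb hab
          simp only [coe_filter, mem_univ, true_and, Set.mem_setOf_eq] at ha hb
          have := hs.isClique ha hb (fun h => hab (Sum.inr_injective h))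
          simpa [S] using this
        · rw [← hs.card_eq, ← Finset.card_map ⟨Sum.inr, Sum.inr_injective⟩]
          congr 1
          ext y
          simp only [Finset.mem_map, mem_filter, mem_univ, true_and, Function.Embedding.coeFn_mk]
          constructor
          · rintro ⟨a, ha, rfl⟩
            exact ha
          · intro hy
            obtain ⟨a, rfl⟩ := hall y hy
            exact ⟨a, hy, rfl⟩
      · ext y
        simp only [Finset.mem_map, mem_filter, mem_univ, true_and, Function.Embedding.coeFn_mk]
        constructor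
        · rintro ⟨a, ha, rfl⟩
          exact ha
        · intro hy
          obtain ⟨a, rfl⟩ := hall y hy
          exact ⟨a, hy, rfl⟩
  have hl : ∀ (j : ℕ) (a : Finset (Fin n)), G.IsNClique j a →
      S.IsNClique j (a.map ⟨Sum.inl, Sum.inl_injective⟩) := by
    intro j a ha
    rw [SimpleGraph.isNClique_iff, Finset.card_map]
    refine ⟨?_, ha.card_eq⟩
    intro x hx y hy hxy
    simp only [coe_map, Function.Embedding.coeFn_mk, Set.mem_image, mem_coe] at hx hy
    obtain ⟨a', ha', rfl⟩ := hx
    obtain ⟨b', hb', rfl⟩ := hy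
    have := ha.isClique ha' hb' (fun h => hxy (by rw [h]))
    simpa [S] using this
  have hr : ∀ (j : ℕ) (a : Finset (Fin m)), H.IsNClique j a →
      S.IsNClique j (a.map ⟨Sum.inr, Sum.inr_injective⟩) := by
    intro j a ha
    rw [SimpleGraph.isNClique_iff, Finset.card_map]
    refine ⟨?_, ha.card_eq⟩
    intro x hx y hy hxy
    simp only [coe_map, Function.Embedding.coeFn_mk, Set.mem_image, mem_coe] at hx hy
    obtain ⟨a', ha', rfl⟩ := hx
    obtain ⟨b', hb', rfl⟩ := hy
    have := ha.isClique ha' hb' (fun h => hxy (by rw [h]))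
    simpa [S] using this
  refine ⟨K, ?_, ?_⟩
  · intro Δ ω hG hH
    apply adm_iso e.symm
    constructor
    · rintro (v | v)
      · refine le_trans (le_of_eq ?_) (hG.1 v)
        apply Nat.card_congr
        refine ⟨fun x => ⟨(match x with | ⟨Sum.inl y, _⟩ => y | ⟨Sum.inr y, _⟩ => v), ?_⟩,
          fun y => ⟨Sum.inl y.1, ?_⟩, ?_, ?_⟩
        · rcases x with ⟨y | y, hy⟩
          · simpa [S] using hy
          · simp [S] at hy
        · have h9 : G.Adj v y.1 := y.2
          show S.Adj (Sum.inl v) (Sum.inl y.1)
          exact SimpleGraph.sum_adj_inl.2 h9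
        · rintro ⟨y | y, hy⟩
          · rfl
          · simp [S] at hy
        · rintro ⟨y, hy⟩
          rfl
      · refine le_trans (le_of_eq ?_) (hH.1 v)
        apply Nat.card_congr
        refine ⟨fun x => ⟨(match x with | ⟨Sum.inr y, _⟩ => y | ⟨Sum.inl y, _⟩ => v), ?_⟩,
          fun y => ⟨Sum.inr y.1, ?_⟩, ?_, ?_⟩
        · rcases x with ⟨y | y, hy⟩
          · simp [S] at hy
          · simpa [S] using hy
        · have h9 : H.Adj v y.1 := y.2
          show S.Adj (Sum.inr v) (Sum.inr y.1)
          exact SimpleGraph.sum_adj_inr.2 h9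
        · rintro ⟨y | y, hy⟩
          · simp [S] at hy
          · rfl
        · rintro ⟨y, hy⟩
          rfl
    · intro s hs
      rcases hcl (ω + 1) s (by omega) hs with ⟨a, ha, _⟩ | ⟨b, hb, _⟩
      · exact hG.2 a ha
      · exact hH.2 b hb
  · intro j hj
    rw [kc_iso e]
    unfold kc
    rw [← Nat.card_sum]
    symm
    apply Nat.card_eq_of_bijective
      (fun x : {s : Finset (Fin n) // G.IsNClique j s} ⊕ {s : Finset (Fin m) // H.IsNClique j s} =>
        (match x with
          | Sum.inl a => ⟨a.1.map ⟨Sum.inl, Sum.inl_injective⟩, hl j a.1 a.2⟩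
          | Sum.inr b => ⟨b.1.map ⟨Sum.inr, Sum.inr_injective⟩, hr j b.1 b.2⟩ :
          {s : Finset (Fin n ⊕ Fin m) // S.IsNClique j s}))
    have hdj : ∀ (a : Finset (Fin n)) (b : Finset (Fin m)), a.card = j →
        a.map ⟨Sum.inl, Sum.inl_injective⟩ ≠ (b.map ⟨Sum.inr, Sum.inr_injective⟩ : Finset (Fin n ⊕ Fin m)) := by
      intro a b ha h
      have hne : a.Nonempty := by
        rw [← Finset.card_pos, ha]
        omega
      obtain ⟨x, hx⟩ := hne
      have h1 : (Sum.inl x : Fin n ⊕ Fin m) ∈ a.map ⟨Sum.inl, Sum.inl_injective⟩ :=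
        Finset.mem_map.2 ⟨x, hx, rfl⟩
      rw [h, Finset.mem_map] at h1
      obtain ⟨y, _, hy⟩ := h1
      simp at hy
    constructor
    · rintro (a | a) (b | b) h
      · have h1 := congrArg Subtype.val h
        simp only [Finset.map_inj] at h1
        rw [Subtype.ext h1]
      · exact absurd (congrArg Subtype.val h) (hdj a.1 b.1 a.2.card_eq)
      · exact absurd (congrArg Subtype.val h).symm (hdj b.1 a.1 b.2.card_eq)
      · have h1 := congrArg Subtype.val h
        simp only [Finset.map_inj] at h1
        rw [Subtype.ext h1]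
    · rintro ⟨s, hs⟩
      rcases hcl j s hj hs with ⟨a, ha, h⟩ | ⟨b, hb, h⟩
      · exact ⟨Sum.inl ⟨a, ha⟩, Subtype.ext h⟩
      · exact ⟨Sum.inr ⟨b, hb⟩, Subtype.ext h⟩

end Pool.Agent.T2H08.KC
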