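import Pool.Agent.T2H08.KC.Stm2

/-! # Package ASB: asymptotics of the maximum -/

set_option autoImplicit false

namespace Pool.Agent.T2H08.KC

open Finset Filter Topology

namespace PkgASB

/-- the set of the limiting problem -/
def KS (u s : ℕ) : Set ℝ :=
  {r | ∃ y : Fin (u + 1) → ℝ, (∀ i, 0 < y i) ∧ (∀ j, ∑ i ∈ univ.erase j, y i ≤ 1) ∧
    r = (∑ i, y i ^ (s - 1)) / (∑ i, 1 / y i)}

lemma y_le {u : ℕ} (hu : 1 ≤ u) {y : Fin (u + 1) → ℝ} (h0 : ∀ i, 0 < y i)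
    (h1 : ∀ j, ∑ i ∈ univ.erase j, y i ≤ 1) (i : Fin (u + 1)) : y i ≤ 1 := by
  haveI : Nontrivial (Fin (u + 1)) := Fin.nontrivial_iff_two_le.mpr (by omega)
  obtain ⟨j, hj⟩ := exists_ne i
  exact (Finset.single_le_sum (f := y) (fun k _ => (h0 k).le)
    (Finset.mem_erase.mpr ⟨hj.symm, Finset.mem_univ i⟩)).trans (h1 j)

lemma bdd {u s : ℕ} (hu : 1 ≤ u) : BddAbove (KS u s) := by
  refine ⟨1, ?_⟩
  rintro r ⟨y, h0, h1, rfl⟩
  have hs : 0 < ∑ i, 1 / y i :=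
    Finset.sum_pos (fun i _ => by have := h0 i; positivity) Finset.univ_nonempty
  rw [div_le_one hs]
  refine Finset.sum_le_sum fun i _ => ?_
  have h2 := y_le hu h0 h1 i
  calc y i ^ (s - 1) ≤ 1 := pow_le_one₀ (h0 i).le h2
    _ ≤ 1 / y i := by rw [le_div_iff₀ (h0 i)]; linarith

lemma le_kap {u s : ℕ} (hu : 1 ≤ u) {y : Fin (u + 1) → ℝ} (h0 : ∀ i, 0 < y i)
    (h1 : ∀ j, ∑ i ∈ univ.erase j, y i ≤ 1) :
    (∑ i, y i ^ (s - 1)) / (∑ i, 1 / y i) ≤ kap u s :=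
  le_csSup (bdd hu) ⟨y, h0, h1, rfl⟩

lemma const_ok (u : ℕ) : (∀ i : Fin (u + 1), 0 < (fun _ : Fin (u + 1) => 1 / ((u : ℝ) + 1)) i) ∧
    ∀ j : Fin (u + 1), ∑ i ∈ univ.erase j, (fun _ : Fin (u + 1) => 1 / ((u : ℝ) + 1)) i ≤ 1 := by
  refine ⟨fun i => by positivity, fun j => ?_⟩
  rw [Finset.sum_const, Finset.card_erase_of_mem (Finset.mem_univ j), Finset.card_univ,
    Fintype.card_fin, nsmul_eq_mul, Nat.add_sub_cancel, mul_one_div, div_le_one (by positivity)]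
  linarith

lemma kap_pos {u s : ℕ} (hu : 1 ≤ u) : 0 < kap u s := by
  have h := le_kap (s := s) hu (const_ok u).1 (const_ok u).2
  refine lt_of_lt_of_le ?_ h
  refine div_pos (Finset.sum_pos (fun i _ => by positivity) Finset.univ_nonempty)
    (Finset.sum_pos (fun i _ => by positivity) Finset.univ_nonempty)

lemma rat_le {u s D : ℕ} (hu : 1 ≤ u) (hs : 1 ≤ s) (hD : 1 ≤ D) {x : Fin (u + 1) → ℕ}
    (hx : Feas u D x) : rat u s x ≤ kap u s * (D : ℝ) ^ s / (s.factorial : ℝ) := by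
  have hD' : (0 : ℝ) < D := by exact_mod_cast hD
  have hx0 : ∀ i, (0 : ℝ) < x i := fun i => by exact_mod_cast hx.1 i
  have hf : (0 : ℝ) < s.factorial := by exact_mod_cast s.factorial_pos
  have h1 := le_kap (s := s) (y := fun i => (x i : ℝ) / D) hu
    (fun i => div_pos (hx0 i) hD') (fun j => by
      rw [← Finset.sum_div, div_le_one hD']
      exact_mod_cast hx.2 j)
  have hS2 : 0 < ∑ i, 1 / (x i : ℝ) :=
    Finset.sum_pos (fun i _ => by have := hx0 i; positivity) Finset.univ_nonempty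
  have e1 : ∑ i, ((x i : ℝ) / D) ^ (s - 1) = (∑ i, (x i : ℝ) ^ (s - 1)) / (D : ℝ) ^ (s - 1) := by
    rw [Finset.sum_div]
    exact Finset.sum_congr rfl fun i _ => div_pow _ _ _
  have e2 : ∑ i, 1 / ((x i : ℝ) / D) = D * ∑ i, 1 / (x i : ℝ) := by
    rw [Finset.mul_sum]
    refine Finset.sum_congr rfl fun i _ => ?_
    have := (hx0 i).ne'
    field_simp
  rw [e1, e2] at h1
  have hpw : (D : ℝ) ^ s = (D : ℝ) ^ (s - 1) * D := by
    rw [← pow_succ]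
    congr 1
    omega
  have h2 : ∑ i, ((x i).choose s : ℝ) / (x i : ℝ) ≤ (∑ i, (x i : ℝ) ^ (s - 1)) / s.factorial := by
    rw [Finset.sum_div]
    refine Finset.sum_le_sum fun i _ => ?_
    have h3 : ((x i).choose s : ℝ) ≤ (x i : ℝ) ^ s / s.factorial := Nat.choose_le_pow_div s (x i)
    have h4 : (x i : ℝ) ^ s = (x i : ℝ) ^ (s - 1) * x i := by
      rw [← pow_succ]
      congr 1
      omega
    rw [div_le_iff₀ (hx0 i)]
    refine h3.trans (le_of_eq ?_)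
    rw [h4]
    ring
  unfold rat
  calc (∑ i, ((x i).choose s : ℝ) / (x i : ℝ)) / (∑ i, 1 / (x i : ℝ))
      ≤ ((∑ i, (x i : ℝ) ^ (s - 1)) / s.factorial) / (∑ i, 1 / (x i : ℝ)) :=
        div_le_div_of_nonneg_right h2 hS2.le
    _ = (∑ i, (x i : ℝ) ^ (s - 1)) / (D : ℝ) ^ (s - 1) / (D * ∑ i, 1 / (x i : ℝ)) *
        ((D : ℝ) ^ s / s.factorial) := by
        rw [hpw]
        field_simp
    _ ≤ kap u s * ((D : ℝ) ^ s / s.factorial) := mul_le_mul_of_nonneg_right h1 (by positivity)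
    _ = _ := by ring

lemma ch_lim (s : ℕ) : Tendsto (fun n : ℕ => (n.choose s : ℝ) / ((n : ℝ) ^ s / s.factorial)) atTop
    (𝓝 1) := by
  have h := isEquivalent_choose s
  have h2 : ∀ᶠ n : ℕ in atTop, ((n : ℝ) ^ s / (s.factorial : ℝ)) ≠ 0 := by
    filter_upwards [eventually_ge_atTop 1] with n hn
    have : (0 : ℝ) < n := by exact_mod_cast hn
    positivity
  exact (Asymptotics.isEquivalent_iff_tendsto_one h2).mp h

lemma low_lim {u s : ℕ} (hs : 1 ≤ s) {y : Fin (u + 1) → ℝ} (h0 : ∀ i, 0 < y i) :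
    Tendsto (fun D : ℕ => rat u s (fun i => ⌊y i * D⌋₊) / ((D : ℝ) ^ s / (s.factorial : ℝ))) atTop
      (𝓝 ((∑ i, y i ^ (s - 1)) / (∑ i, 1 / y i))) := by
  have hfl : ∀ i, Tendsto (fun D : ℕ => ((⌊y i * (D : ℝ)⌋₊ : ℕ) : ℝ) / (D : ℝ)) atTop (𝓝 (y i)) :=
    fun i => (tendsto_nat_floor_mul_div_atTop (h0 i).le).comp tendsto_natCast_atTop_atTop
  have hfl2 : ∀ i, Tendsto (fun D : ℕ => ⌊y i * (D : ℝ)⌋₊) atTop atTop := fun i =>
    tendsto_nat_floor_atTop.comp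
      (Tendsto.const_mul_atTop (h0 i) (tendsto_natCast_atTop_atTop (R := ℝ)))
  have h1 : Tendsto (fun D : ℕ => (∑ i, ((⌊y i * (D : ℝ)⌋₊).choose s : ℝ) /
      (((⌊y i * (D : ℝ)⌋₊ : ℕ) : ℝ) ^ s / s.factorial) *
      (((⌊y i * (D : ℝ)⌋₊ : ℕ) : ℝ) / (D : ℝ)) ^ (s - 1)) /
      (∑ i, 1 / (((⌊y i * (D : ℝ)⌋₊ : ℕ) : ℝ) / (D : ℝ)))) atTop
      (𝓝 ((∑ i, 1 * y i ^ (s - 1)) / (∑ i, 1 / y i))) := by
    refine Tendsto.div ?_ ?_ ?_
    · refine tendsto_finsetSum _ fun i _ => ?_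
      exact ((ch_lim s).comp (hfl2 i)).mul ((hfl i).pow (s - 1))
    · refine tendsto_finsetSum _ fun i _ => ?_
      exact tendsto_const_nhds.div (hfl i) (h0 i).ne'
    · refine (Finset.sum_pos (fun i _ => ?_) Finset.univ_nonempty).ne'
      have := h0 i
      positivity
  simp only [one_mul] at h1
  refine h1.congr' ?_
  have hev : ∀ᶠ D : ℕ in atTop, ∀ i, 1 ≤ ⌊y i * (D : ℝ)⌋₊ :=
    eventually_all.mpr fun i => (hfl2 i).eventually (eventually_ge_atTop 1)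
  filter_upwards [hev, eventually_ge_atTop 1] with D hD hD1
  have hD' : (0 : ℝ) < D := by exact_mod_cast hD1
  have hf : (0 : ℝ) < s.factorial := by exact_mod_cast s.factorial_pos
  have hpw : (D : ℝ) ^ s = (D : ℝ) ^ (s - 1) * D := by
    rw [← pow_succ]
    congr 1
    omega
  have hx0 : ∀ i, (0 : ℝ) < ((⌊y i * (D : ℝ)⌋₊ : ℕ) : ℝ) := fun i => by exact_mod_cast hD i
  unfold rat
  have e1 : ∑ i, ((⌊y i * (D : ℝ)⌋₊).choose s : ℝ) /
      (((⌊y i * (D : ℝ)⌋₊ : ℕ) : ℝ) ^ s / s.factorial) *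
      (((⌊y i * (D : ℝ)⌋₊ : ℕ) : ℝ) / (D : ℝ)) ^ (s - 1) =
      s.factorial / (D : ℝ) ^ (s - 1) *
        ∑ i, ((⌊y i * (D : ℝ)⌋₊).choose s : ℝ) / ((⌊y i * (D : ℝ)⌋₊ : ℕ) : ℝ) := by
    rw [Finset.mul_sum]
    refine Finset.sum_congr rfl fun i _ => ?_
    have h4 : ((⌊y i * (D : ℝ)⌋₊ : ℕ) : ℝ) ^ s =
        ((⌊y i * (D : ℝ)⌋₊ : ℕ) : ℝ) ^ (s - 1) * ((⌊y i * (D : ℝ)⌋₊ : ℕ) : ℝ) := by
      rw [← pow_succ]
      congr 1
      omega
    have := (hx0 i).ne'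
    rw [h4, div_pow]
    field_simp
  have e2 : ∑ i, 1 / (((⌊y i * (D : ℝ)⌋₊ : ℕ) : ℝ) / (D : ℝ)) =
      D * ∑ i, 1 / ((⌊y i * (D : ℝ)⌋₊ : ℕ) : ℝ) := by
    rw [Finset.mul_sum]
    refine Finset.sum_congr rfl fun i _ => ?_
    have := (hx0 i).ne'
    field_simp
  have hS2 : 0 < ∑ i, 1 / ((⌊y i * (D : ℝ)⌋₊ : ℕ) : ℝ) :=
    Finset.sum_pos (fun i _ => by have := hx0 i; positivity) Finset.univ_nonempty
  rw [e1, e2, hpw]
  generalize (∑ i, 1 / ((⌊y i * (D : ℝ)⌋₊ : ℕ) : ℝ)) = B at hS2 ⊢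
  generalize (∑ i, ((⌊y i * (D : ℝ)⌋₊).choose s : ℝ) / ((⌊y i * (D : ℝ)⌋₊ : ℕ) : ℝ)) = A
  field_simp

end PkgASB

open PkgASB

theorem pASB : S_ASB := by
  intro u s hu hs
  have hk := kap_pos (s := s) hu
  refine ⟨hk, ?_⟩
  have hf : (0 : ℝ) < s.factorial := by exact_mod_cast s.factorial_pos
  rw [tendsto_order]
  constructor
  · intro a ha
    have h1 : a * kap u s < kap u s := by nlinarith
    obtain ⟨r, ⟨y, h0, hy, rfl⟩, hr⟩ := exists_lt_of_lt_csSup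
      (s := KS u s) ⟨_, _, (const_ok u).1, (const_ok u).2, rfl⟩ h1
    have h2 := (low_lim (s := s) hs h0).eventually (eventually_gt_nhds hr)
    have hfl2 : ∀ i, Tendsto (fun D : ℕ => ⌊y i * (D : ℝ)⌋₊) atTop atTop := fun i =>
      tendsto_nat_floor_atTop.comp
        (Tendsto.const_mul_atTop (h0 i) (tendsto_natCast_atTop_atTop (R := ℝ)))
    have hev : ∀ᶠ D : ℕ in atTop, ∀ i, 1 ≤ ⌊y i * (D : ℝ)⌋₊ :=
      eventually_all.mpr fun i => (hfl2 i).eventually (eventually_ge_atTop 1)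
    filter_upwards [h2, hev, eventually_ge_atTop 1] with D hD1 hD2 hD3
    have hD' : (0 : ℝ) < D := by exact_mod_cast hD3
    have hfe : Feas u D (fun i => ⌊y i * (D : ℝ)⌋₊) := by
      refine ⟨hD2, fun j => ?_⟩
      have h3 : ((∑ i ∈ univ.erase j, ⌊y i * (D : ℝ)⌋₊ : ℕ) : ℝ) ≤ D := by
        push_cast
        calc ∑ i ∈ univ.erase j, ((⌊y i * (D : ℝ)⌋₊ : ℕ) : ℝ)
            ≤ ∑ i ∈ univ.erase j, y i * (D : ℝ) :=
              Finset.sum_le_sum fun i _ => Nat.floor_le (mul_nonneg (h0 i).le hD'.le)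
          _ = (∑ i ∈ univ.erase j, y i) * D := by rw [Finset.sum_mul]
          _ ≤ 1 * D := mul_le_mul_of_nonneg_right (hy j) hD'.le
          _ = D := one_mul _
      exact_mod_cast h3
    have hmx : rat u s (fun i => ⌊y i * (D : ℝ)⌋₊) ≤ mx u s D := by
      refine le_csSup ?_ ⟨_, hfe, rfl⟩
      refine ⟨kap u s * (D : ℝ) ^ s / (s.factorial : ℝ), ?_⟩
      rintro r ⟨x, hx, rfl⟩
      exact rat_le hu hs hD3 hx
    rw [lt_div_iff₀ (by positivity)] at hD1 ⊢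
    refine lt_of_lt_of_le ?_ hmx
    refine lt_of_eq_of_lt ?_ hD1
    ring
  · intro a ha
    filter_upwards [eventually_ge_atTop 1] with D hD
    have hD' : (0 : ℝ) < D := by exact_mod_cast hD
    refine lt_of_le_of_lt ?_ ha
    rw [div_le_one (by positivity)]
    unfold mx
    refine Real.sSup_le ?_ (by positivity)
    rintro r ⟨x, hx, rfl⟩
    exact rat_le hu hs hD hx

end Pool.Agent.T2H08.KC
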