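import Pool.Agent.T2H08.KC.Stm2

set_option autoImplicit false

namespace Pool.Agent.T2H08.KC

open Finset Filter Topology

theorem pATT : S_ATT := by
  intro u s Δ hu huD
  have hfin : {x : Fin (u + 1) → ℕ | Feas u Δ x}.Finite := by
    apply (Set.finite_Iic (fun _ : Fin (u + 1) => Δ)).subset
    intro x hx i
    obtain ⟨j, hj⟩ : ∃ j : Fin (u + 1), j ≠ i := by
      haveI : Nontrivial (Fin (u + 1)) := Fin.nontrivial_iff_two_le.2 (by omega)
      exact exists_ne i
    have h1 := hx.2 j
    have h2 : x i ≤ ∑ i ∈ univ.erase j, x i :=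
      Finset.single_le_sum (f := x) (fun _ _ => Nat.zero_le _) (mem_erase.2 ⟨hj.symm, mem_univ i⟩)
    exact h2.trans h1
  have hne : {x : Fin (u + 1) → ℕ | Feas u Δ x}.Nonempty := by
    refine ⟨fun _ => 1, fun _ => le_rfl, fun j => ?_⟩
    rw [Finset.sum_const, Finset.card_erase_of_mem (mem_univ j), Finset.card_univ, Fintype.card_fin]
    simpa using huD
  have hfin' := hfin.image (rat u s)
  constructor
  · obtain ⟨x, hx, hxe⟩ := (hne.image (rat u s)).csSup_mem hfin'
    exact ⟨x, hx, hxe⟩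
  · intro x hx
    exact le_csSup hfin'.bddAbove ⟨x, hx, rfl⟩

end Pool.Agent.T2H08.KC
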