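import Pool.Agent.T2H08.KC.Stm2

set_option autoImplicit false

namespace Pool.Agent.T2H08.KC

open Finset Filter Topology

namespace PkgCON

open Classical in
theorem cn_eq {n : ℕ} (G : SimpleGraph (Fin n)) (Q : Finset (Fin n)) :
    cn G Q = (univ.filter (fun x => ∀ v ∈ Q, G.Adj v x)).card := by
  unfold cn
  rw [Nat.card_eq_fintype_card, Fintype.card_subtype]

end PkgCON

open PkgCON

theorem pCON : S_CON := by
  classical
  intro n Δ u G hG K hK
  constructor
  · intro w hw
    rw [cn_eq, Nat.one_le_iff_ne_zero, ← Nat.pos_iff_ne_zero, Finset.card_pos]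
    refine ⟨w, ?_⟩
    rw [mem_filter]
    refine ⟨mem_univ _, fun v hv => ?_⟩
    rw [mem_erase] at hv
    exact hK.isClique hv.2 hw hv.1
  · intro v hv
    let N : Fin n → Finset (Fin n) := fun w => univ.filter (fun x => ∀ v ∈ K.erase w, G.Adj v x)
    have h1 : ∑ w ∈ K.erase v, cn G (K.erase w) = ∑ w ∈ K.erase v, (N w).card :=
      Finset.sum_congr rfl fun w _ => cn_eq G _
    rw [h1]
    have hdis : ((K.erase v : Finset (Fin n)) : Set (Fin n)).PairwiseDisjoint N := by
      intro w hw w' hw' hne
      rw [Function.onFun, Finset.disjoint_left]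
      intro x hx hx'
      simp only [N, mem_filter, mem_univ, true_and] at hx hx'
      have hall : ∀ y ∈ K, G.Adj y x := by
        intro y hy
        by_cases hyw : y = w
        · apply hx' y
          rw [mem_erase]
          exact ⟨by rw [hyw]; exact hne, hy⟩
        · exact hx y (mem_erase.2 ⟨hyw, hy⟩)
      exact hG.2 _ (hK.insert (a := x) (fun b hb => (hall b hb).symm))
    rw [← Finset.card_biUnion hdis]
    refine le_trans ?_ (hG.1 v)
    have h2 : Nat.card (G.neighborSet v) = (univ.filter (fun x => G.Adj v x)).card := by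
      rw [Nat.card_eq_fintype_card, ← Set.toFinset_card]
      congr 1
      ext x
      rw [Set.mem_toFinset, mem_filter]
      exact ⟨fun h => ⟨mem_univ _, h⟩, fun h => h.2⟩
    rw [h2]
    apply Finset.card_le_card
    intro x hx
    rw [mem_biUnion] at hx
    obtain ⟨w, hw, hx⟩ := hx
    simp only [N, mem_filter, mem_univ, true_and] at hx
    rw [mem_erase] at hw
    rw [mem_filter]
    exact ⟨mem_univ _, hx v (mem_erase.2 ⟨hw.1.symm, hv⟩)⟩

end Pool.Agent.T2H08.KC
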