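import Pool.Agent.T2H08.KC.Stm2

set_option autoImplicit false

namespace Pool.Agent.T2H08.KC

open Finset

namespace PkgCPB

/-- the copy of the join with `Q` as clique part and `S` as independent part -/
def subg {n : ℕ} (G : SimpleGraph (Fin n)) (Q S : Finset (Fin n)) : G.Subgraph where
  verts := {x | x ∈ Q ∨ x ∈ S}
  Adj a b := G.Adj a b ∧ (a ∈ Q ∨ b ∈ Q) ∧ (a ∈ Q ∨ a ∈ S) ∧ (b ∈ Q ∨ b ∈ S)
  adj_sub h := h.1
  edge_vert h := h.2.2.1
  symm := ⟨fun _ _ h => ⟨h.1.symm, h.2.1.symm, h.2.2.2, h.2.2.1⟩⟩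

/-- a good pair -/
def Gd {n : ℕ} (G : SimpleGraph (Fin n)) (u s : ℕ) (p : Finset (Fin n) × Finset (Fin n)) : Prop :=
  G.IsNClique u p.1 ∧ p.2.card = s ∧ ∀ v ∈ p.1, ∀ w ∈ p.2, G.Adj v w

theorem adj_iff {n : ℕ} {G : SimpleGraph (Fin n)} {u s : ℕ} {Q S : Finset (Fin n)} (h : Gd G u s (Q, S))
    (a b : Fin n) (ha : a ∈ Q ∨ a ∈ S) (hb : b ∈ Q ∨ b ∈ S) :
    (subg G Q S).Adj a b ↔ a ≠ b ∧ (a ∈ Q ∨ b ∈ Q) := by
  constructor
  · intro hab
    exact ⟨hab.1.ne, hab.2.1⟩
  · rintro ⟨hne, hab⟩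
    refine ⟨?_, hab, ha, hb⟩
    rcases hab with h1 | h1
    · rcases hb with h2 | h2
      · exact h.1.isClique h1 h2 hne
      · exact h.2.2 a h1 b h2
    · rcases ha with h2 | h2
      · exact h.1.isClique h2 h1 hne
      · exact (h.2.2 b h1 a h2).symm

theorem disj {n : ℕ} {G : SimpleGraph (Fin n)} {u s : ℕ} {Q S : Finset (Fin n)} (h : Gd G u s (Q, S))
    (a : Fin n) (ha : a ∈ S) : a ∉ Q := fun h' => G.irrefl (h.2.2 a h' a ha)

theorem iso_subg {n : ℕ} {G : SimpleGraph (Fin n)} {u s : ℕ} {Q S : Finset (Fin n)} (h : Gd G u s (Q, S)) :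
    Nonempty ((subg G Q S).coe ≃g joinKI u s) := by
  have eQ : Q ≃ Fin u := Q.equivFinOfCardEq h.1.card_eq
  have eS : S ≃ Fin s := S.equivFinOfCardEq h.2.1
  let f : Fin u ⊕ Fin s → (subg G Q S).verts :=
    Sum.elim (fun i => ⟨(eQ.symm i).1, Or.inl (eQ.symm i).2⟩) (fun j => ⟨(eS.symm j).1, Or.inr (eS.symm j).2⟩)
  have hf1 : ∀ a, (f a).1 ∈ Q ↔ a.isLeft = true := by
    rintro (i | j)
    · simp [f]
    · simp only [f, Sum.elim_inr, Sum.isLeft_inr, Bool.false_eq_true, iff_false]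
      exact disj h _ (eS.symm j).2
  have hinj : Function.Injective f := by
    rintro (i | i) (j | j) hij
    · have h1 : (eQ.symm i).1 = (eQ.symm j).1 := congrArg (fun z : (subg G Q S).verts => z.1) hij
      have h2 := eQ.symm.injective (Subtype.ext h1)
      rw [h2]
    · exfalso
      have h1 : (eQ.symm i).1 = (eS.symm j).1 := congrArg Subtype.val hij
      exact disj h _ (eS.symm j).2 (h1 ▸ (eQ.symm i).2)
    · exfalso
      have h1 : (eS.symm i).1 = (eQ.symm j).1 := congrArg Subtype.val hij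
      exact disj h _ (eS.symm i).2 (h1 ▸ (eQ.symm j).2)
    · have h1 : (eS.symm i).1 = (eS.symm j).1 := congrArg (fun z : (subg G Q S).verts => z.1) hij
      have h2 := eS.symm.injective (Subtype.ext h1)
      rw [h2]
  have hsurj : Function.Surjective f := by
    rintro ⟨x, hx | hx⟩
    · refine ⟨Sum.inl (eQ ⟨x, hx⟩), ?_⟩
      apply Subtype.ext
      simp [f]
    · refine ⟨Sum.inr (eS ⟨x, hx⟩), ?_⟩
      apply Subtype.ext
      simp [f]
  have hbij : Function.Bijective f := ⟨hinj, hsurj⟩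
  have e : joinKI u s ≃g (subg G Q S).coe := by
    refine ⟨Equiv.ofBijective f hbij, ?_⟩
    intro a b
    show (subg G Q S).Adj (f a).1 (f b).1 ↔ _
    rw [adj_iff h _ _ (f a).2 (f b).2, hf1, hf1]
    constructor
    · rintro ⟨h1, h2⟩
      exact ⟨fun hab => h1 (by rw [hab]), h2⟩
    · rintro ⟨h1, h2⟩
      exact ⟨fun hab => h1 (hinj (Subtype.ext hab)), h2⟩
  exact ⟨e.symm⟩

theorem recQ {n : ℕ} {G : SimpleGraph (Fin n)} {u s : ℕ} (hs : 2 ≤ s) {Q S : Finset (Fin n)}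
    (h : Gd G u s (Q, S)) (x : Fin n) :
    x ∈ Q ↔ x ∈ (subg G Q S).verts ∧ ∀ y ∈ (subg G Q S).verts, y ≠ x → (subg G Q S).Adj x y := by
  constructor
  · intro hx
    refine ⟨Or.inl hx, fun y hy hyx => ?_⟩
    rw [adj_iff h x y (Or.inl hx) hy]
    exact ⟨hyx.symm, Or.inl hx⟩
  · rintro ⟨hx | hx, hall⟩
    · exact hx
    · exfalso
      have hc : 1 < S.card := by
        have := h.2.1
        simp only at this
        omega
      obtain ⟨y, hy, hyx⟩ := Finset.exists_mem_ne hc x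
      have h1 := hall y (Or.inr hy) hyx
      rcases h1.2.1 with h2 | h2
      · exact disj h x hx h2
      · exact disj h y hy h2

theorem recS {n : ℕ} {G : SimpleGraph (Fin n)} {u s : ℕ} {Q S : Finset (Fin n)}
    (h : Gd G u s (Q, S)) (x : Fin n) : x ∈ S ↔ x ∈ (subg G Q S).verts ∧ x ∉ Q := by
  constructor
  · intro hx
    exact ⟨Or.inr hx, disj h x hx⟩
  · rintro ⟨hx | hx, hn⟩
    · exact absurd hx hn
    · exact hx

theorem surj {n : ℕ} {G : SimpleGraph (Fin n)} {u s : ℕ} (K : G.Subgraph) (φ : K.coe ≃g joinKI u s) :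
    ∃ Q S : Finset (Fin n), Gd G u s (Q, S) ∧ subg G Q S = K := by
  classical
  have hadj : ∀ a b (ha : a ∈ K.verts) (hb : b ∈ K.verts), K.Adj a b ↔
      (joinKI u s).Adj (φ ⟨a, ha⟩) (φ ⟨b, hb⟩) := by
    intro a b ha hb
    rw [φ.map_rel_iff, SimpleGraph.Subgraph.coe_adj]
  let Q : Finset (Fin n) := univ.image (fun i : Fin u => (φ.symm (Sum.inl i)).1)
  let S : Finset (Fin n) := univ.image (fun i : Fin s => (φ.symm (Sum.inr i)).1)
  have hQ : ∀ x, x ∈ Q ↔ ∃ hx : x ∈ K.verts, (φ ⟨x, hx⟩).isLeft = true := by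
    intro x
    simp only [Q, mem_image, mem_univ, true_and]
    constructor
    · rintro ⟨i, rfl⟩
      refine ⟨(φ.symm (Sum.inl i)).2, ?_⟩
      simp
    · rintro ⟨hx, h⟩
      rw [Sum.isLeft_iff] at h
      obtain ⟨i, hi⟩ := h
      refine ⟨i, ?_⟩
      rw [← hi, φ.symm_apply_apply]
  have hS : ∀ x, x ∈ S ↔ ∃ hx : x ∈ K.verts, (φ ⟨x, hx⟩).isLeft = false := by
    intro x
    simp only [S, mem_image, mem_univ, true_and]
    constructor
    · rintro ⟨i, rfl⟩
      refine ⟨(φ.symm (Sum.inr i)).2, ?_⟩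
      simp
    · rintro ⟨hx, h⟩
      rw [Sum.isLeft_eq_false, Sum.isRight_iff] at h
      obtain ⟨i, hi⟩ := h
      refine ⟨i, ?_⟩
      rw [← hi, φ.symm_apply_apply]
  have hV : ∀ x, x ∈ K.verts ↔ x ∈ Q ∨ x ∈ S := by
    intro x
    rw [hQ, hS]
    constructor
    · intro hx
      rcases h : (φ ⟨x, hx⟩).isLeft with _ | _
      · exact Or.inr ⟨hx, h⟩
      · exact Or.inl ⟨hx, h⟩
    · rintro (⟨hx, _⟩ | ⟨hx, _⟩)
      · exact hx
      · exact hx
  have hKadj : ∀ a b, a ∈ K.verts → b ∈ K.verts → (K.Adj a b ↔ a ≠ b ∧ (a ∈ Q ∨ b ∈ Q)) := by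
    intro a b ha hb
    rw [hadj a b ha hb, hQ, hQ]
    constructor
    · rintro ⟨h1, h2⟩
      refine ⟨fun hab => h1 (by simp [hab]), ?_⟩
      rcases h2 with h2 | h2
      · exact Or.inl ⟨ha, h2⟩
      · exact Or.inr ⟨hb, h2⟩
    · rintro ⟨h1, h2⟩
      refine ⟨fun hab => h1 (congrArg Subtype.val (φ.injective hab)), ?_⟩
      rcases h2 with ⟨_, h2⟩ | ⟨_, h2⟩
      · exact Or.inl h2
      · exact Or.inr h2
  have hdis : ∀ x, x ∈ S → x ∉ Q := by
    intro x hx hx'
    obtain ⟨_, h1⟩ := (hS x).1 hx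
    obtain ⟨_, h2⟩ := (hQ x).1 hx'
    rw [h1] at h2
    exact absurd h2 (by simp)
  refine ⟨Q, S, ⟨?_, ?_, ?_⟩, ?_⟩
  · rw [SimpleGraph.isNClique_iff]
    constructor
    · intro a ha b hb hab
      have ha' : a ∈ Q := ha
      have hb' : b ∈ Q := hb
      exact K.adj_sub ((hKadj a b ((hV a).2 (Or.inl ha')) ((hV b).2 (Or.inl hb'))).2 ⟨hab, Or.inl ha'⟩)
    · simp only [Q]
      rw [Finset.card_image_of_injective _ (fun i j hij => Sum.inl_injective (φ.symm.injective (Subtype.ext hij))),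
        Finset.card_univ, Fintype.card_fin]
  · simp only [S]
    rw [Finset.card_image_of_injective _ (fun i j hij => Sum.inr_injective (φ.symm.injective (Subtype.ext hij))),
      Finset.card_univ, Fintype.card_fin]
  · intro v hv w hw
    have hv' : v ∈ Q := hv
    have hw' : w ∈ S := hw
    apply K.adj_sub
    rw [hKadj v w ((hV v).2 (Or.inl hv')) ((hV w).2 (Or.inr hw'))]
    exact ⟨fun h => hdis w hw' (h ▸ hv'), Or.inl hv'⟩
  · apply SimpleGraph.Subgraph.ext
    · ext x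
      exact (hV x).symm
    · funext a b
      rw [eq_iff_iff]
      constructor
      · rintro ⟨h1, h2, h3, h4⟩
        rw [hKadj a b ((hV a).2 h3) ((hV b).2 h4)]
        exact ⟨h1.ne, h2⟩
      · intro hab
        have ha := K.edge_vert hab
        have hb := K.edge_vert hab.symm
        have h1 := (hKadj a b ha hb).1 hab
        exact ⟨K.adj_sub hab, h1.2, (hV a).1 ha, (hV b).1 hb⟩

theorem card_pairs {n : ℕ} (G : SimpleGraph (Fin n)) (u s : ℕ) :
    Nat.card {p : Finset (Fin n) × Finset (Fin n) // Gd G u s p} = ww G u s := by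
  classical
  rw [Nat.card_eq_fintype_card, Fintype.card_subtype]
  rw [Finset.card_eq_sum_card_fiberwise (f := Prod.fst)
    (t := univ.filter (fun Q : Finset (Fin n) => G.IsNClique u Q))]
  · unfold ww
    apply Finset.sum_congr
    · ext Q
      simp only [mem_filter, mem_univ, true_and]
    · intro Q hQ
      have hQ2 := (Finset.mem_filter.1 hQ).2
      have hcn : cn G Q = (univ.filter (fun w => ∀ v ∈ Q, G.Adj v w)).card := by
        unfold cn
        rw [Nat.card_eq_fintype_card, Fintype.card_subtype]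
      rw [hcn, ← Finset.card_powersetCard]
      have himg : (univ.filter (fun p => Gd G u s p)).filter (fun p => p.1 = Q) =
          ((univ.filter (fun w => ∀ v ∈ Q, G.Adj v w)).powersetCard s).image (fun S => (Q, S)) := by
        ext ⟨Q', S⟩
        simp only [mem_filter, mem_univ, true_and, mem_image, mem_powersetCard, Prod.mk.injEq]
        constructor
        · rintro ⟨h, rfl⟩
          refine ⟨S, ⟨?_, h.2.1⟩, rfl, rfl⟩
          intro w hw
          rw [mem_filter]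
          exact ⟨mem_univ _, fun v hv => h.2.2 v hv w hw⟩
        · rintro ⟨S', ⟨h1, h2⟩, rfl, rfl⟩
          refine ⟨⟨hQ2, h2, ?_⟩, rfl⟩
          intro v hv w hw
          exact (Finset.mem_filter.1 (h1 hw)).2 v hv
      rw [himg, Finset.card_image_of_injective]
      intro a b hab
      exact (Prod.mk.inj hab).2
  · intro p hp
    have hp2 := (Finset.mem_filter.1 hp).2
    rw [Finset.mem_coe, Finset.mem_filter]
    exact ⟨mem_univ _, hp2.1⟩

end PkgCPB

open PkgCPB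

theorem pCPB : S_CPB := by
  intro n u s G hs
  rw [← card_pairs]
  unfold num
  symm
  apply Nat.card_eq_of_bijective (fun p : {p : Finset (Fin n) × Finset (Fin n) // Gd G u s p} =>
    (⟨subg G p.1.1 p.1.2, iso_subg p.2⟩ : {K : G.Subgraph // Nonempty (K.coe ≃g joinKI u s)}))
  constructor
  · rintro ⟨⟨Q, S⟩, h⟩ ⟨⟨Q', S'⟩, h'⟩ hEq
    have h1 : subg G Q S = subg G Q' S' := congrArg Subtype.val hEq
    have hQQ : Q = Q' := by
      ext x
      rw [recQ hs h x, recQ hs h' x, h1]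
    have hSS : S = S' := by
      ext x
      rw [recS h x, recS h' x, h1, hQQ]
    subst hQQ
    subst hSS
    rfl
  · rintro ⟨K, ⟨φ⟩⟩
    obtain ⟨Q, S, h1, h2⟩ := surj K φ
    exact ⟨⟨(Q, S), h1⟩, Subtype.ext h2⟩

end Pool.Agent.T2H08.KC
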