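import Pool.Agent.T2H08.KC.Stm2

set_option autoImplicit false

namespace Pool.Agent.T2H08.KC

open Finset Filter Topology

theorem pDBL : S_DBL := by
  classical
  intro n u G g
  have hcn : ∀ Q : Finset (Fin n), cn G Q = (univ.filter (fun x => ∀ v ∈ Q, G.Adj v x)).card := by
    intro Q
    unfold cn
    rw [Nat.card_eq_fintype_card, Fintype.card_subtype]
  have h1 : ∑ Q ∈ univ.filter (fun Q : Finset (Fin n) => G.IsNClique u Q), (cn G Q : ℝ) * g (cn G Q) =
      ∑ Q ∈ univ.filter (fun Q : Finset (Fin n) => G.IsNClique u Q),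
        ∑ _w ∈ univ.filter (fun x => ∀ v ∈ Q, G.Adj v x), g (cn G Q) := by
    apply Finset.sum_congr rfl
    intro Q _
    rw [Finset.sum_const, nsmul_eq_mul, hcn]
  rw [h1, Finset.sum_sigma', Finset.sum_sigma']
  apply Finset.sum_nbij' (fun p => (⟨p.1.erase p.2, p.2⟩ : Σ _ : Finset (Fin n), Fin n))
    (fun p => (⟨insert p.2 p.1, p.2⟩ : Σ _ : Finset (Fin n), Fin n))
  · rintro ⟨K, w⟩ h
    simp only [mem_sigma, mem_filter, mem_univ, true_and] at h ⊢
    obtain ⟨hK, hw⟩ := h
    refine ⟨?_, ?_⟩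
    · rw [SimpleGraph.isNClique_iff]
      refine ⟨fun a ha b hb hab => ?_, ?_⟩
      · rw [mem_coe, mem_erase] at ha hb
        exact hK.isClique ha.2 hb.2 hab
      · rw [card_erase_of_mem hw, hK.card_eq]
        rfl
    · intro v hv
      rw [mem_erase] at hv
      exact hK.isClique hv.2 hw hv.1
  · rintro ⟨Q, w⟩ h
    simp only [mem_sigma, mem_filter, mem_univ, true_and] at h ⊢
    obtain ⟨hQ, hw⟩ := h
    exact ⟨hQ.insert (fun b hb => (hw b hb).symm), mem_insert_self _ _⟩
  · rintro ⟨K, w⟩ h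
    simp only [mem_sigma, mem_filter, mem_univ, true_and] at h
    simp only
    rw [insert_erase h.2]
  · rintro ⟨Q, w⟩ h
    simp only [mem_sigma, mem_filter, mem_univ, true_and] at h
    simp only
    rw [erase_insert]
    intro hw
    exact G.irrefl (h.2 w hw)
  · rintro ⟨K, w⟩ _
    rfl

end Pool.Agent.T2H08.KC
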