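import Pool.Agent.T2H08.KC.KAP

/-! # The constant of the asymptotic formula -/

set_option autoImplicit false

namespace Pool.Agent.T2H08.KC

open Finset Filter Topology

theorem asymp (hASB : S_ASB) (u s : ℕ) (hu : 1 ≤ u) (hs : 2 ≤ s) : 0 < kap1 u s ∧
    Tendsto (fun D : ℕ => mx u s D / (kap1 u s * (D : ℝ) ^ s / (s.factorial : ℝ))) atTop (𝓝 1) := by
  have h := hASB u s hu (by omega)
  have e : kap u s = kap1 u s := kap_eq u s hu hs
  rw [e] at h
  exact h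

/-- for every `u ≥ 2` and all large `s` the optimum is not attained by equal parts -/
theorem kap1_gt (u : ℕ) (hu : 2 ≤ u) : ∀ᶠ s : ℕ in atTop, (1 / (u : ℝ)) ^ s < kap1 u s := by
  have hu2 : (2 : ℝ) ≤ u := by exact_mod_cast hu
  have hu0 : (0 : ℝ) < u := by linarith
  set β : ℝ := ((u : ℝ) + 1) / (2 * u) with hβ
  set d : ℝ := (u : ℝ) / (1 / (2 * u)) + 1 / β with hd
  have hβ0 : 0 < β := by positivity
  have hd0 : 0 < d := by positivity
  have hgrow : ∀ᶠ s : ℕ in atTop, d * (1 / u) < (((u : ℝ) + 1) / 2) ^ s := by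
    have h1 : Tendsto (fun s : ℕ => (((u : ℝ) + 1) / 2) ^ s) atTop atTop :=
      tendsto_pow_atTop_atTop_of_one_lt (by linarith)
    exact h1.eventually_gt_atTop _
  obtain ⟨s0, hs0⟩ := eventually_atTop.1 hgrow
  filter_upwards [eventually_ge_atTop (s0 + 2)] with s hs
  obtain ⟨m, rfl⟩ : ∃ m, s = m + 2 := ⟨s - 2, by omega⟩
  have hm := hs0 (m + 1) (by omega)
  have hbd : BddAbove {r | ∃ α : ℝ, 0 < α ∧ (u : ℝ) * α ≤ 1 ∧ r = rat1 u (m + 2) α} := by
    by_contra hcon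
    have h1 : kap1 u (m + 2) = 0 := Real.sSup_of_not_bddAbove hcon
    have h2 : kap u (m + 2) = kap1 u (m + 2) := kap_eq u (m + 2) (by omega) (by omega)
    have h3 : BddAbove {r | ∃ α : ℝ, 0 < α ∧ (u : ℝ) * α ≤ 1 ∧ r = rat1 u (m + 2) α} := by
      refine ⟨(u : ℝ) + 1, ?_⟩
      rintro r ⟨α, hα, huα, rfl⟩
      have hb : 0 < 1 - ((u : ℝ) - 1) * α := by nlinarith
      have hb1 : 1 - ((u : ℝ) - 1) * α ≤ 1 := by nlinarith
      have hα1 : α ≤ 1 := by nlinarith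
      unfold rat1
      have hpos : 0 < (u : ℝ) / α + 1 / (1 - ((u : ℝ) - 1) * α) := by positivity
      rw [div_le_iff₀ hpos]
      have e1 : α ^ (m + 2 - 1) ≤ 1 := pow_le_one₀ hα.le hα1
      have e2 : (1 - ((u : ℝ) - 1) * α) ^ (m + 2 - 1) ≤ 1 := pow_le_one₀ hb.le hb1
      have e3 : 1 ≤ 1 / (1 - ((u : ℝ) - 1) * α) := by
        rw [le_div_iff₀ hb]; linarith
      have e4 : 0 < (u : ℝ) / α := by positivity
      nlinarith
    exact hcon h3
  have hval : rat1 u (m + 2) (1 / (2 * u)) ≤ kap1 u (m + 2) :=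
    le_csSup hbd ⟨1 / (2 * u), by positivity, by field_simp; norm_num, rfl⟩
  refine lt_of_lt_of_le ?_ hval
  unfold rat1
  have e1 : 1 - ((u : ℝ) - 1) * (1 / (2 * u)) = β := by
    rw [hβ]
    field_simp
    ring
  rw [e1, lt_div_iff₀ hd0]
  have e2 : β ^ (m + 2 - 1) = (((u : ℝ) + 1) / 2) ^ (m + 1) * (1 / u) ^ (m + 1) := by
    rw [← mul_pow, show m + 2 - 1 = m + 1 by omega, hβ]
    congr 1
    field_simp
  rw [e2]
  have hp : (0 : ℝ) < (1 / (u : ℝ)) ^ (m + 1) := by positivity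
  have h5 : (1 / (u : ℝ)) ^ (m + 2) * d = (d * (1 / u)) * (1 / (u : ℝ)) ^ (m + 1) := by ring
  rw [h5]
  have h6 := mul_lt_mul_of_pos_right hm hp
  have h7 : 0 < (u : ℝ) * (1 / (2 * u)) ^ (m + 2 - 1) := by positivity
  linarith

end Pool.Agent.T2H08.KC
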