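import Pool.Agent.T2H08.KC.Stm2

/-!
# KC: the complete multipartite graph with parts of given sizes
-/

set_option autoImplicit false

namespace Pool.Agent.T2H08.KC

open Finset Filter Topology

namespace PkgMPT

variable {n k : ℕ}

/-- the complete multipartite graph with the colour classes of `c` as parts -/
def gr (c : Fin n → Fin k) : SimpleGraph (Fin n) where
  Adj a b := c a ≠ c b
  symm := ⟨fun _ _ h => Ne.symm h⟩
  loopless := ⟨fun _ h => h rfl⟩

/-- the colour classes -/
def cls (c : Fin n → Fin k) (i : Fin k) : Finset (Fin n) := univ.filter (fun a => c a = i)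

open Classical in
/-- the transversals of the classes with colours in `I` -/
noncomputable def tr (c : Fin n → Fin k) (I : Finset (Fin k)) : Finset (Finset (Fin n)) :=
  univ.filter (fun s => Set.InjOn c s ∧ s.image c = I)

theorem mem_tr {c : Fin n → Fin k} {I : Finset (Fin k)} {s : Finset (Fin n)} :
    s ∈ tr c I ↔ Set.InjOn c s ∧ s.image c = I := by
  unfold tr
  rw [mem_filter]
  exact ⟨fun h => h.2, fun h => ⟨mem_univ _, h⟩⟩

theorem card_tr (c : Fin n → Fin k) (I : Finset (Fin k)) :
    (tr c I).card = ∏ j ∈ I, (cls c j).card := by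
  classical
  rw [← Finset.card_pi]
  symm
  refine Finset.card_bij (fun f _ => I.attach.image (fun j => f j.1 j.2)) ?_ ?_ ?_
  · intro f hf
    rw [Finset.mem_pi] at hf
    have hf' : ∀ j (hj : j ∈ I), c (f j hj) = j := fun j hj => (mem_filter.1 (hf j hj)).2
    rw [mem_tr]
    constructor
    · intro a ha b hb hab
      simp only [coe_image, Set.mem_image, mem_coe, mem_attach, true_and, Subtype.exists] at ha hb
      obtain ⟨j, hj, rfl⟩ := ha
      obtain ⟨l, hl, rfl⟩ := hb
      rw [hf', hf'] at hab
      subst hab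
      rfl
    · ext j
      simp only [mem_image, mem_attach, true_and, Subtype.exists]
      constructor
      · rintro ⟨a, ⟨l, hl, rfl⟩, rfl⟩
        rw [hf']
        exact hl
      · intro hj
        exact ⟨f j hj, ⟨j, hj, rfl⟩, hf' j hj⟩
  · intro f hf g hg h
    rw [Finset.mem_pi] at hf hg
    have hf' : ∀ j (hj : j ∈ I), c (f j hj) = j := fun j hj => (mem_filter.1 (hf j hj)).2
    have hg' : ∀ j (hj : j ∈ I), c (g j hj) = j := fun j hj => (mem_filter.1 (hg j hj)).2
    funext j hj
    have h1 : f j hj ∈ I.attach.image (fun j => g j.1 j.2) := by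
      rw [← h]
      exact mem_image.2 ⟨⟨j, hj⟩, mem_attach _ _, rfl⟩
    obtain ⟨⟨l, hl⟩, -, h2⟩ := mem_image.1 h1
    have h3 : c (g l hl) = c (f j hj) := congrArg c h2
    rw [hf', hg'] at h3
    subst h3
    exact h2.symm
  · intro s hs
    rw [mem_tr] at hs
    obtain ⟨hinj, him⟩ := hs
    have h1 : ∀ j ∈ I, ∃ a ∈ s, c a = j := by
      intro j hj
      rw [← him] at hj
      exact mem_image.1 hj
    choose f hf using h1
    refine ⟨f, ?_, ?_⟩
    · rw [Finset.mem_pi]
      intro j hj
      exact mem_filter.2 ⟨mem_univ _, (hf j hj).2⟩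
    · ext a
      simp only [mem_image, mem_attach, true_and, Subtype.exists]
      constructor
      · rintro ⟨j, hj, rfl⟩
        exact (hf j hj).1
      · intro ha
        have hc : c a ∈ I := by
          rw [← him]
          exact mem_image_of_mem c ha
        exact ⟨c a, hc, hinj (hf _ hc).1 ha (hf _ hc).2⟩

theorem clique_iff (c : Fin n → Fin k) (s : Finset (Fin n)) (m : ℕ) :
    (gr c).IsNClique m s ↔ Set.InjOn c s ∧ s.card = m := by
  rw [SimpleGraph.isNClique_iff, SimpleGraph.isClique_iff]
  refine and_congr_left fun _ => ?_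
  constructor
  · intro h a ha b hb hab
    by_contra hne
    exact h ha hb hne hab
  · intro h a ha b hb hne hab
    exact hne (h ha hb hab)

theorem cliques (u : ℕ) (c : Fin n → Fin (u + 1))
    [inst : DecidablePred fun Q : Finset (Fin n) => (gr c).IsNClique u Q] :
    univ.filter (fun Q : Finset (Fin n) => (gr c).IsNClique u Q) =
      univ.biUnion (fun i : Fin (u + 1) => tr c (univ.erase i)) := by
  classical
  ext s
  simp only [mem_filter, mem_univ, true_and, mem_biUnion, mem_tr, clique_iff]
  constructor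
  · rintro ⟨hinj, hc⟩
    have h1 : (s.image c).card = u := by rw [card_image_of_injOn hinj, hc]
    have h2 : ((s.image c)ᶜ).card = 1 := by
      rw [card_compl, h1, Fintype.card_fin]
      omega
    obtain ⟨i, hi⟩ := card_eq_one.1 h2
    refine ⟨i, hinj, ?_⟩
    ext j
    rw [mem_erase]
    constructor
    · intro hj
      refine ⟨?_, mem_univ _⟩
      rintro rfl
      have : j ∈ (s.image c)ᶜ := by
        rw [hi]
        exact mem_singleton_self j
      exact (mem_compl.1 this) hj
    · rintro ⟨hj, -⟩
      by_contra hcon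
      have : j ∈ (s.image c)ᶜ := mem_compl.2 hcon
      rw [hi, mem_singleton] at this
      exact hj this
  · rintro ⟨i, hinj, him⟩
    refine ⟨hinj, ?_⟩
    rw [← card_image_of_injOn hinj, him, card_erase_of_mem (mem_univ _), card_univ,
      Fintype.card_fin]
    omega

theorem disj (u : ℕ) (c : Fin n → Fin (u + 1)) :
    Set.PairwiseDisjoint (↑(univ : Finset (Fin (u + 1))))
      (fun i : Fin (u + 1) => tr c (univ.erase i)) := by
  intro i _ j _ hij
  rw [Function.onFun, disjoint_left]
  intro s hs hs'
  rw [mem_tr] at hs hs'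
  apply hij
  have h := hs.2.symm.trans hs'.2
  by_contra hne
  have h1 : j ∈ univ.erase i := mem_erase.2 ⟨fun h => hne h.symm, mem_univ _⟩
  rw [h] at h1
  exact (mem_erase.1 h1).1 rfl

theorem cn_eq (u : ℕ) (c : Fin n → Fin (u + 1)) (i : Fin (u + 1)) (Q : Finset (Fin n))
    (hQ : Q ∈ tr c (univ.erase i)) : cn (gr c) Q = (cls c i).card := by
  classical
  rw [mem_tr] at hQ
  unfold cn cls
  rw [Nat.card_eq_fintype_card, Fintype.card_subtype]
  congr 1
  ext w
  simp only [mem_filter, mem_univ, true_and]
  constructor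
  · intro h
    by_contra hne
    have h1 : c w ∈ Q.image c := by
      rw [hQ.2]
      exact mem_erase.2 ⟨hne, mem_univ _⟩
    obtain ⟨v, hv, hvw⟩ := mem_image.1 h1
    exact h v hv hvw
  · intro h v hv hvw
    have h1 : c v ∈ Q.image c := mem_image_of_mem c hv
    rw [hQ.2, mem_erase] at h1
    exact h1.1 (hvw.trans h)

theorem deg (c : Fin n → Fin k) (v : Fin n) :
    Nat.card ((gr c).neighborSet v) = ∑ i ∈ univ.erase (c v), (cls c i).card := by
  classical
  have h1 : Nat.card ((gr c).neighborSet v) = (univ.filter (fun w => c v ≠ c w)).card := by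
    rw [Nat.card_eq_fintype_card, ← Set.toFinset_card]
    congr 1
    ext w
    simp [gr]
  rw [h1, Finset.card_eq_sum_card_fiberwise (f := c) (t := univ.erase (c v))]
  · refine Finset.sum_congr rfl fun i hi => ?_
    unfold cls
    congr 1
    ext w
    simp only [mem_filter, mem_univ, true_and]
    constructor
    · exact fun h => h.2
    · intro h
      refine ⟨?_, h⟩
      rw [h]
      exact fun h2 => (mem_erase.1 hi).1 h2.symm
  · intro w hw
    simp only [coe_filter, mem_univ, true_and, Set.mem_ofPred_eq] at hw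
    rw [mem_coe, mem_erase]
    exact ⟨fun h => hw h.symm, mem_univ _⟩

theorem exists_col (x : Fin k → ℕ) : ∃ (n : ℕ) (c : Fin n → Fin k), ∀ i, (cls c i).card = x i := by
  classical
  refine ⟨Fintype.card (Σ i, Fin (x i)), fun a => ((Fintype.equivFin (Σ i, Fin (x i))).symm a).1,
    fun i => ?_⟩
  have h0 : x i = (univ : Finset (Fin (x i))).card := by rw [card_univ, Fintype.card_fin]
  refine Eq.trans ?_ h0.symm
  symm
  refine Finset.card_bij (fun t _ => Fintype.equivFin (Σ i, Fin (x i)) ⟨i, t⟩) ?_ ?_ ?_
  · intro t _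
    exact mem_filter.2 ⟨mem_univ _, by simp⟩
  · intro t _ t' _ h
    have h1 := (Fintype.equivFin (Σ i, Fin (x i))).injective h
    exact eq_of_heq (Sigma.mk.inj h1).2
  · intro a ha
    have h1 := (mem_filter.1 ha).2
    obtain ⟨⟨j, t⟩, rfl⟩ := (Fintype.equivFin (Σ i, Fin (x i))).surjective a
    simp only [Equiv.symm_apply_apply] at h1
    subst h1
    exact ⟨t, mem_univ _, rfl⟩

end PkgMPT

theorem pMPT : S_MPT := by
  classical
  intro u Δ x hx
  obtain ⟨n, c, hc⟩ := PkgMPT.exists_col x
  refine ⟨n, PkgMPT.gr c, ⟨fun v => ?_, ?_⟩, ?_, fun s => ?_⟩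
  · rw [PkgMPT.deg]
    simp_rw [hc]
    exact hx.2 (c v)
  · intro s hs
    rw [PkgMPT.clique_iff] at hs
    have h1 := card_le_univ (s.image c)
    rw [card_image_of_injOn hs.1, hs.2, Fintype.card_fin] at h1
    omega
  · unfold kc
    rw [Nat.card_eq_fintype_card, Fintype.card_subtype, PkgMPT.cliques,
      Finset.card_biUnion (fun i _ j _ h => PkgMPT.disj u c (mem_univ i) (mem_univ j) h)]
    refine Finset.sum_congr rfl fun i _ => ?_
    rw [PkgMPT.card_tr]
    simp_rw [hc]
  · unfold ww
    rw [PkgMPT.cliques, Finset.sum_biUnion (PkgMPT.disj u c)]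
    refine Finset.sum_congr rfl fun i _ => ?_
    have h1 : ∀ Q ∈ PkgMPT.tr c (univ.erase i), (cn (PkgMPT.gr c) Q).choose s =
        (x i).choose s := by
      intro Q hQ
      rw [PkgMPT.cn_eq u c i Q hQ, hc]
    rw [Finset.sum_congr rfl h1, Finset.sum_const, smul_eq_mul, PkgMPT.card_tr]
    simp_rw [hc]

end Pool.Agent.T2H08.KC
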