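import Pool.Agent.T2H08.KC.Stm2

set_option autoImplicit false

namespace Pool.Agent.T2H08.KC

open Finset Filter Topology

theorem pUBB (hCON : S_CON) (hDBL : S_DBL) : S_UBB := by
  classical
  intro n Δ u s G M hG hs hM hx
  have hkc : (kc G u : ℝ) = ∑ Q ∈ univ.filter (fun Q : Finset (Fin n) => G.IsNClique u Q), (1 : ℝ) := by
    unfold kc
    rw [Nat.card_eq_fintype_card, Fintype.card_subtype, Finset.sum_const, nsmul_eq_mul, mul_one]
  have hK : ∀ K ∈ univ.filter (fun K : Finset (Fin n) => G.IsNClique (u + 1) K),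
      ∑ w ∈ K, ((cn G (K.erase w)).choose s : ℝ) / (cn G (K.erase w) : ℝ) ≤
        M * ∑ w ∈ K, 1 / (cn G (K.erase w) : ℝ) := by
    intro K hKm
    have hKc : G.IsNClique (u + 1) K := (mem_filter.1 hKm).2
    obtain ⟨h1, h2⟩ := hCON n Δ u G hG K hKc
    let e : K ≃ Fin (u + 1) := K.equivFinOfCardEq hKc.card_eq
    have hre : ∀ F : Fin n → ℝ, ∑ w ∈ K, F w = ∑ i : Fin (u + 1), F (e.symm i).1 := by
      intro F
      rw [← Finset.sum_coe_sort K F, ← Equiv.sum_comp e.symm]
    have hf : Feas u Δ (fun i => cn G (K.erase (e.symm i).1)) := by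
      refine ⟨fun i => h1 _ (e.symm i).2, fun j => ?_⟩
      refine le_trans (le_of_eq ?_) (h2 (e.symm j).1 (e.symm j).2)
      apply Finset.sum_bij (fun i _ => (e.symm i).1)
      · intro i hi
        rw [mem_erase] at hi ⊢
        exact ⟨fun h => hi.1 (e.symm.injective (Subtype.ext h)), (e.symm i).2⟩
      · intro i _ j _ h
        exact e.symm.injective (Subtype.ext h)
      · intro w hw
        rw [mem_erase] at hw
        refine ⟨e ⟨w, hw.2⟩, ?_, ?_⟩
        · rw [mem_erase]
          refine ⟨fun h => hw.1 ?_, mem_univ _⟩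
          rw [← h, Equiv.symm_apply_apply]
        · rw [Equiv.symm_apply_apply]
      · intro i _
        rfl
    have h3 := hx _ hf
    rw [hre, hre]
    exact h3
  have hsum := Finset.sum_le_sum hK
  rw [← Finset.mul_sum] at hsum
  have e1 := hDBL n u G (fun x => (x.choose s : ℝ) / (x : ℝ))
  have e2 := hDBL n u G (fun x => 1 / (x : ℝ))
  rw [e1, e2] at hsum
  have h4 : (ww G u s : ℝ) = ∑ Q ∈ univ.filter (fun Q : Finset (Fin n) => G.IsNClique u Q),
      (cn G Q : ℝ) * (((cn G Q).choose s : ℝ) / (cn G Q : ℝ)) := by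
    unfold ww
    rw [Nat.cast_sum]
    apply Finset.sum_congr (by ext; simp)
    intro Q _
    by_cases h0 : cn G Q = 0
    · rw [h0, Nat.choose_eq_zero_of_lt (by omega : 0 < s)]
      simp
    · have : (cn G Q : ℝ) ≠ 0 := by exact_mod_cast h0
      field_simp
  rw [h4]
  refine hsum.trans ?_
  apply mul_le_mul_of_nonneg_left _ hM
  rw [hkc]
  apply Finset.sum_le_sum
  intro Q _
  by_cases h0 : cn G Q = 0
  · rw [h0]
    simp
  · have : (cn G Q : ℝ) ≠ 0 := by exact_mod_cast h0
    rw [mul_one_div, div_self this]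

end Pool.Agent.T2H08.KC
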