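import Pool.Agent.T2H08.KC.Stm2

set_option autoImplicit false

namespace Pool.Agent.T2H08.KC

open Finset Filter Topology

namespace PkgUN2

theorem clique_iso {V W : Type} {G : SimpleGraph V} {H : SimpleGraph W} (e : G ≃g H) (j : ℕ) (s : Finset V) :
    G.IsNClique j s ↔ H.IsNClique j (s.map e.toEquiv.toEmbedding) := by
  rw [SimpleGraph.isNClique_iff, SimpleGraph.isNClique_iff, Finset.card_map]
  apply and_congr_left
  intro _
  constructor
  · intro h x hx y hy hxy
    rw [mem_coe, Finset.mem_map] at hx hy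
    obtain ⟨a, ha, rfl⟩ := hx
    obtain ⟨b, hb, rfl⟩ := hy
    have hab : a ≠ b := fun h' => hxy (by rw [h'])
    exact e.map_rel_iff.2 (h ha hb hab)
  · intro h a ha b hb hab
    have h1 := h (x := e a) (mem_coe.2 (Finset.mem_map.2 ⟨a, ha, rfl⟩)) (y := e b)
      (mem_coe.2 (Finset.mem_map.2 ⟨b, hb, rfl⟩)) (fun h' => hab (e.toEquiv.injective h'))
    exact e.map_rel_iff.1 h1

theorem adm_iso {V W : Type} {G : SimpleGraph V} {H : SimpleGraph W} (e : G ≃g H) {Δ ω : ℕ} (h : Adm Δ ω G) :
    Adm Δ ω H := by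
  constructor
  · intro w
    have h1 := h.1 (e.symm w)
    refine le_trans (le_of_eq ?_) h1
    have h2 := e.mapNeighborSet (e.symm w)
    rw [e.apply_symm_apply] at h2
    exact (Nat.card_congr h2).symm
  · intro s hs
    have h2 := (clique_iso e.symm (ω + 1) s).1 hs
    exact h.2 _ h2

theorem cn_iso {V W : Type} {G : SimpleGraph V} {H : SimpleGraph W} (e : G ≃g H) (Q : Finset V) :
    cn G Q = cn H (Q.map e.toEquiv.toEmbedding) := by
  unfold cn
  apply Nat.card_congr
  apply Equiv.subtypeEquiv e.toEquiv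
  intro w
  constructor
  · intro h v hv
    rw [Finset.mem_map] at hv
    obtain ⟨a, ha, rfl⟩ := hv
    exact e.map_rel_iff.2 (h a ha)
  · intro h v hv
    exact e.map_rel_iff.1 (h (e v) (Finset.mem_map.2 ⟨v, hv, rfl⟩))

open Classical in
/-- sums over cliques -/
noncomputable def sc {V : Type} [Fintype V] (G : SimpleGraph V) (j : ℕ) (F : Finset V → ℕ) : ℕ :=
  ∑ Q ∈ univ.filter (fun Q : Finset V => G.IsNClique j Q), F Q

theorem sc_eq {V : Type} [Fintype V] (G : SimpleGraph V) (j : ℕ) (F : Finset V → ℕ)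
    [DecidablePred (fun Q : Finset V => G.IsNClique j Q)] :
    sc G j F = ∑ Q ∈ univ.filter (fun Q : Finset V => G.IsNClique j Q), F Q := by
  unfold sc
  apply Finset.sum_congr _ (fun _ _ => rfl)
  ext Q
  simp only [mem_filter, mem_univ, true_and]

theorem sc_iso {V W : Type} [Fintype V] [Fintype W] {G : SimpleGraph V} {H : SimpleGraph W} (e : G ≃g H)
    (j : ℕ) (F : Finset V → ℕ) (F' : Finset W → ℕ)
    (hF : ∀ Q, F Q = F' (Q.map e.toEquiv.toEmbedding)) : sc G j F = sc H j F' := by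
  classical
  unfold sc
  apply Finset.sum_equiv (Equiv.finsetCongr e.toEquiv)
  · intro Q
    simp only [mem_filter, mem_univ, true_and]
    exact clique_iso e j Q
  · intro Q _
    exact hF Q

theorem kc_sc {V : Type} [Fintype V] (G : SimpleGraph V) (j : ℕ) : kc G j = sc G j (fun _ => 1) := by
  classical
  unfold kc sc
  rw [Nat.card_eq_fintype_card, Fintype.card_subtype, Finset.sum_const, smul_eq_mul, mul_one]

theorem ww_sc {n : ℕ} (G : SimpleGraph (Fin n)) (u s : ℕ) : ww G u s = sc G u (fun Q => (cn G Q).choose s) := by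
  unfold ww sc
  apply Finset.sum_congr _ (fun _ _ => rfl)
  ext Q
  simp only [mem_filter, mem_univ, true_and]

theorem cl_sum {n m : ℕ} (G : SimpleGraph (Fin n)) (H : SimpleGraph (Fin m)) (j : ℕ)
    (s : Finset (Fin n ⊕ Fin m)) (hj : 1 ≤ j) (hs : (G ⊕g H).IsNClique j s) :
      (∃ a : Finset (Fin n), G.IsNClique j a ∧ a.map ⟨Sum.inl, Sum.inl_injective⟩ = s) ∨
      (∃ b : Finset (Fin m), H.IsNClique j b ∧ b.map ⟨Sum.inr, Sum.inr_injective⟩ = s) := by
  classical
  have hne : s.Nonempty := by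
    rw [← Finset.card_pos, hs.card_eq]
    omega
  obtain ⟨x, hx⟩ := hne
  rcases x with x | x
  · left
    have hall : ∀ y ∈ s, ∃ a, y = Sum.inl a := by
      intro y hy
      rcases y with y | y
      · exact ⟨y, rfl⟩
      · exfalso
        have := hs.isClique hx hy (by simp)
        simp at this
    have hmap : (univ.filter (fun a => Sum.inl a ∈ s)).map ⟨Sum.inl, Sum.inl_injective⟩ = s := by
      ext y
      simp only [Finset.mem_map, mem_filter, mem_univ, true_and, Function.Embedding.coeFn_mk]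
      constructor
      · rintro ⟨a, ha, rfl⟩
        exact ha
      · intro hy
        obtain ⟨a, rfl⟩ := hall y hy
        exact ⟨a, hy, rfl⟩
    refine ⟨univ.filter (fun a => Sum.inl a ∈ s), ?_, hmap⟩
    rw [SimpleGraph.isNClique_iff]
    constructor
    · intro a ha b hb hab
      rw [mem_coe, mem_filter] at ha hb
      have := hs.isClique ha.2 hb.2 (fun h => hab (Sum.inl_injective h))
      simpa using this
    · rw [← hs.card_eq, ← Finset.card_map ⟨Sum.inl, Sum.inl_injective⟩, hmap]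
  · right
    have hall : ∀ y ∈ s, ∃ a, y = Sum.inr a := by
      intro y hy
      rcases y with y | y
      · exfalso
        have := hs.isClique hx hy (by simp)
        simp at this
      · exact ⟨y, rfl⟩
    have hmap : (univ.filter (fun a => Sum.inr a ∈ s)).map ⟨Sum.inr, Sum.inr_injective⟩ = s := by
      ext y
      simp only [Finset.mem_map, mem_filter, mem_univ, true_and, Function.Embedding.coeFn_mk]
      constructor
      · rintro ⟨a, ha, rfl⟩
        exact ha
      · intro hy
        obtain ⟨a, rfl⟩ := hall y hy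
        exact ⟨a, hy, rfl⟩
    refine ⟨univ.filter (fun a => Sum.inr a ∈ s), ?_, hmap⟩
    rw [SimpleGraph.isNClique_iff]
    constructor
    · intro a ha b hb hab
      rw [mem_coe, mem_filter] at ha hb
      have := hs.isClique ha.2 hb.2 (fun h => hab (Sum.inr_injective h))
      simpa using this
    · rw [← hs.card_eq, ← Finset.card_map ⟨Sum.inr, Sum.inr_injective⟩, hmap]

theorem cl_inl {n m : ℕ} (G : SimpleGraph (Fin n)) (H : SimpleGraph (Fin m)) (j : ℕ) (a : Finset (Fin n))
    (ha : G.IsNClique j a) : (G ⊕g H).IsNClique j (a.map ⟨Sum.inl, Sum.inl_injective⟩) := by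
  rw [SimpleGraph.isNClique_iff, Finset.card_map]
  refine ⟨?_, ha.card_eq⟩
  intro x hx y hy hxy
  simp only [coe_map, Function.Embedding.coeFn_mk, Set.mem_image, mem_coe] at hx hy
  obtain ⟨a', ha', rfl⟩ := hx
  obtain ⟨b', hb', rfl⟩ := hy
  have := ha.isClique ha' hb' (fun h => hxy (by rw [h]))
  simpa using this

theorem cl_inr {n m : ℕ} (G : SimpleGraph (Fin n)) (H : SimpleGraph (Fin m)) (j : ℕ) (a : Finset (Fin m))
    (ha : H.IsNClique j a) : (G ⊕g H).IsNClique j (a.map ⟨Sum.inr, Sum.inr_injective⟩) := by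
  rw [SimpleGraph.isNClique_iff, Finset.card_map]
  refine ⟨?_, ha.card_eq⟩
  intro x hx y hy hxy
  simp only [coe_map, Function.Embedding.coeFn_mk, Set.mem_image, mem_coe] at hx hy
  obtain ⟨a', ha', rfl⟩ := hx
  obtain ⟨b', hb', rfl⟩ := hy
  have := ha.isClique ha' hb' (fun h => hxy (by rw [h]))
  simpa using this

theorem sc_sum {n m : ℕ} (G : SimpleGraph (Fin n)) (H : SimpleGraph (Fin m)) (j : ℕ) (hj : 1 ≤ j)
    (F : Finset (Fin n ⊕ Fin m) → ℕ) : sc (G ⊕g H) j F =
      sc G j (fun a => F (a.map ⟨Sum.inl, Sum.inl_injective⟩)) +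
      sc H j (fun b => F (b.map ⟨Sum.inr, Sum.inr_injective⟩)) := by
  classical
  rw [sc_eq, sc_eq, sc_eq]
  have h1 : univ.filter (fun Q : Finset (Fin n ⊕ Fin m) => (G ⊕g H).IsNClique j Q) =
      (univ.filter (fun Q : Finset (Fin n) => G.IsNClique j Q)).image
        (fun a => a.map ⟨Sum.inl, Sum.inl_injective⟩) ∪
      (univ.filter (fun Q : Finset (Fin m) => H.IsNClique j Q)).image
        (fun a => a.map ⟨Sum.inr, Sum.inr_injective⟩) := by
    ext s
    simp only [mem_filter, mem_univ, true_and, mem_union, mem_image]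
    constructor
    · intro hs
      rcases cl_sum G H j s hj hs with ⟨a, ha, h⟩ | ⟨a, ha, h⟩
      · exact Or.inl ⟨a, ha, h⟩
      · exact Or.inr ⟨a, ha, h⟩
    · rintro (⟨a, ha, rfl⟩ | ⟨a, ha, rfl⟩)
      · exact cl_inl G H j a ha
      · exact cl_inr G H j a ha
  rw [h1, Finset.sum_union, Finset.sum_image, Finset.sum_image]
  · intro a _ b _ h
    exact Finset.map_injective _ h
  · intro a _ b _ h
    exact Finset.map_injective _ h
  · rw [Finset.disjoint_left]
    intro s hs hs'
    rw [mem_image] at hs hs'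
    obtain ⟨a, ha, rfl⟩ := hs
    obtain ⟨b, hb, h⟩ := hs'
    rw [mem_filter] at ha
    have hne : a.Nonempty := by
      rw [← Finset.card_pos, ha.2.card_eq]
      omega
    obtain ⟨x, hx⟩ := hne
    have h2 : (Sum.inl x : Fin n ⊕ Fin m) ∈ a.map ⟨Sum.inl, Sum.inl_injective⟩ :=
      Finset.mem_map.2 ⟨x, hx, rfl⟩
    rw [← h, Finset.mem_map] at h2
    obtain ⟨y, _, hy⟩ := h2
    simp at hy

theorem cn_inl {n m : ℕ} (G : SimpleGraph (Fin n)) (H : SimpleGraph (Fin m)) (a : Finset (Fin n))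
    (ha : a.Nonempty) : cn (G ⊕g H) (a.map ⟨Sum.inl, Sum.inl_injective⟩) = cn G a := by
  unfold cn
  symm
  apply Nat.card_eq_of_bijective (fun w : {w // ∀ v ∈ a, G.Adj v w} =>
    (⟨Sum.inl w.1, by
      intro v hv
      rw [Finset.mem_map] at hv
      obtain ⟨b, hb, rfl⟩ := hv
      simpa using w.2 b hb⟩ : {w // ∀ v ∈ a.map ⟨Sum.inl, Sum.inl_injective⟩, (G ⊕g H).Adj v w}))
  constructor
  · intro x y h
    apply Subtype.ext
    exact Sum.inl_injective (congrArg Subtype.val h)
  · rintro ⟨w, hw⟩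
    obtain ⟨b, hb⟩ := ha
    have h1 := hw (Sum.inl b) (Finset.mem_map.2 ⟨b, hb, rfl⟩)
    rcases w with w | w
    · refine ⟨⟨w, ?_⟩, rfl⟩
      intro v hv
      have := hw (Sum.inl v) (Finset.mem_map.2 ⟨v, hv, rfl⟩)
      simpa using this
    · simp at h1

theorem cn_inr {n m : ℕ} (G : SimpleGraph (Fin n)) (H : SimpleGraph (Fin m)) (a : Finset (Fin m))
    (ha : a.Nonempty) : cn (G ⊕g H) (a.map ⟨Sum.inr, Sum.inr_injective⟩) = cn H a := by
  unfold cn
  symm
  apply Nat.card_eq_of_bijective (fun w : {w // ∀ v ∈ a, H.Adj v w} =>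
    (⟨Sum.inr w.1, by
      intro v hv
      rw [Finset.mem_map] at hv
      obtain ⟨b, hb, rfl⟩ := hv
      simpa using w.2 b hb⟩ : {w // ∀ v ∈ a.map ⟨Sum.inr, Sum.inr_injective⟩, (G ⊕g H).Adj v w}))
  constructor
  · intro x y h
    apply Subtype.ext
    exact Sum.inr_injective (congrArg Subtype.val h)
  · rintro ⟨w, hw⟩
    obtain ⟨b, hb⟩ := ha
    have h1 := hw (Sum.inr b) (Finset.mem_map.2 ⟨b, hb, rfl⟩)
    rcases w with w | w
    · simp at h1
    · refine ⟨⟨w, ?_⟩, rfl⟩
      intro v hv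
      have := hw (Sum.inr v) (Finset.mem_map.2 ⟨v, hv, rfl⟩)
      simpa using this

theorem adm_sum {n m : ℕ} (G : SimpleGraph (Fin n)) (H : SimpleGraph (Fin m)) {Δ ω : ℕ} (hG : Adm Δ ω G)
    (hH : Adm Δ ω H) : Adm Δ ω (G ⊕g H) := by
  constructor
  · rintro (v | v)
    · refine le_trans (le_of_eq ?_) (hG.1 v)
      symm
      apply Nat.card_eq_of_bijective (fun w : G.neighborSet v =>
        (⟨Sum.inl w.1, (SimpleGraph.sum_adj_inl (G := G) (H := H)).2 w.2⟩ : (G ⊕g H).neighborSet (Sum.inl v)))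
      constructor
      · intro x y h
        apply Subtype.ext
        exact Sum.inl_injective (congrArg Subtype.val h)
      · rintro ⟨w | w, hw⟩
        · exact ⟨⟨w, (SimpleGraph.sum_adj_inl (G := G) (H := H)).1 hw⟩, rfl⟩
        · simp at hw
    · refine le_trans (le_of_eq ?_) (hH.1 v)
      symm
      apply Nat.card_eq_of_bijective (fun w : H.neighborSet v =>
        (⟨Sum.inr w.1, (SimpleGraph.sum_adj_inr (G := G) (H := H)).2 w.2⟩ : (G ⊕g H).neighborSet (Sum.inr v)))
      constructor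
      · intro x y h
        apply Subtype.ext
        exact Sum.inr_injective (congrArg Subtype.val h)
      · rintro ⟨w | w, hw⟩
        · simp at hw
        · exact ⟨⟨w, (SimpleGraph.sum_adj_inr (G := G) (H := H)).1 hw⟩, rfl⟩
  · intro s hs
    rcases cl_sum G H (ω + 1) s (by omega) hs with ⟨a, ha, _⟩ | ⟨b, hb, _⟩
    · exact hG.2 a ha
    · exact hH.2 b hb

end PkgUN2

open PkgUN2

theorem pUN2 : S_UN2 := by
  classical
  intro n m G H
  let K : SimpleGraph (Fin (n + m)) := (G ⊕g H).comap finSumFinEquiv.symm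
  have e : K ≃g (G ⊕g H) := SimpleGraph.Iso.comap finSumFinEquiv.symm (G ⊕g H)
  refine ⟨K, fun Δ ω hG hH => adm_iso e.symm (adm_sum G H hG hH), fun j hj => ?_, fun u s hu => ?_⟩
  · rw [kc_sc, kc_sc, kc_sc, sc_iso e j (fun _ => 1) (fun _ => 1) (fun _ => rfl), sc_sum G H j hj]
  · rw [ww_sc, ww_sc, ww_sc, sc_iso e u _ (fun Q => (cn (G ⊕g H) Q).choose s) (fun Q => by rw [cn_iso e Q]),
      sc_sum G H u hu]
    congr 1
    · rw [sc_eq, sc_eq]
      apply Finset.sum_congr rfl
      intro Q hQ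
      have hQ2 := (Finset.mem_filter.1 hQ).2
      have hne : Q.Nonempty := by
        rw [← Finset.card_pos, hQ2.card_eq]
        omega
      rw [cn_inl G H Q hne]
    · rw [sc_eq, sc_eq]
      apply Finset.sum_congr rfl
      intro Q hQ
      have hQ2 := (Finset.mem_filter.1 hQ).2
      have hne : Q.Nonempty := by
        rw [← Finset.card_pos, hQ2.card_eq]
        omega
      rw [cn_inr G H Q hne]

end Pool.Agent.T2H08.KC
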