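import Pool.Agent.T2H08.KC.Stm

/-! # ASY: asymptotics -/

set_option autoImplicit false

namespace Pool.Agent.T2H08.KC

open Finset Filter Topology

theorem pASY : S_ASY := by
  intro w k F c hw hF hc
  have hw0 : (0 : ℝ) < w := by exact_mod_cast hw
  have h1 : Tendsto (fun D : ℕ => (1 - (w : ℝ) / D) ^ k) atTop (𝓝 1) := by
    have h := (tendsto_const_div_atTop_nhds_zero_nat (w : ℝ)).const_sub (1 : ℝ)
    have h' := h.pow k
    simpa using h'
  refine tendsto_of_tendsto_of_tendsto_of_le_of_le' h1 tendsto_const_nhds ?_ ?_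
  · filter_upwards [hc, eventually_ge_atTop w] with D hD hDw
    have hD0 : (0 : ℝ) < D := by exact_mod_cast (lt_of_lt_of_le (by omega : 0 < w) hDw)
    have hDw0 : (0 : ℝ) < (D : ℝ) / w := div_pos hD0 hw0
    have hpos : 0 < F * ((D : ℝ) / w) ^ k := by positivity
    rw [le_div_iff₀ hpos]
    refine le_trans ?_ hD.1
    have h2 : (D : ℝ) / w - 1 ≤ ((D / w : ℕ) : ℝ) := by
      have h3 := Nat.div_add_mod D w
      have h4 := Nat.mod_lt D (show 0 < w by omega)
      have h5 : (D : ℝ) ≤ w * ((D / w : ℕ) : ℝ) + w := by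
        have : D ≤ w * (D / w) + w := by omega
        exact_mod_cast this
      rw [sub_le_iff_le_add, div_le_iff₀ hw0]
      linarith
    have h6 : (0 : ℝ) ≤ 1 - (w : ℝ) / D := by
      rw [sub_nonneg, div_le_one hD0]
      exact_mod_cast hDw
    have h7 : (1 - (w : ℝ) / D) * ((D : ℝ) / w) = (D : ℝ) / w - 1 := by
      field_simp
    calc (1 - (w : ℝ) / D) ^ k * (F * ((D : ℝ) / w) ^ k)
        = F * ((1 - (w : ℝ) / D) * ((D : ℝ) / w)) ^ k := by rw [mul_pow]; ring
      _ ≤ F * ((D / w : ℕ) : ℝ) ^ k := by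
        rw [h7]
        have h8 : 0 ≤ (D : ℝ) / w - 1 := by
          rw [← h7]; positivity
        gcongr
  · filter_upwards [hc, eventually_ge_atTop w] with D hD hDw
    have hD0 : (0 : ℝ) < D := by exact_mod_cast (lt_of_lt_of_le (by omega : 0 < w) hDw)
    have hDw0 : (0 : ℝ) < (D : ℝ) / w := div_pos hD0 hw0
    have hpos : 0 < F * ((D : ℝ) / w) ^ k := by positivity
    rw [div_le_one hpos]
    exact hD.2

end Pool.Agent.T2H08.KC
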