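import Mathlib

/-! # Copies of cliques in graphs of bounded degree and clique number: definitions -/

set_option autoImplicit false

namespace Pool.Agent.T2H08.KC

/-- `N(H, G)`: the number of (not necessarily induced) subgraphs of `G` isomorphic to `H` -/
noncomputable def num {W V : Type} (H : SimpleGraph W) (G : SimpleGraph V) : ℕ :=
  Nat.card {K : G.Subgraph // Nonempty (K.coe ≃g H)}

/-- `G` has no `K_{1,Δ+1}` (all degrees are at most `Δ`) and no `K_{ω+1}` -/
def Adm (Δ ω : ℕ) {V : Type} (G : SimpleGraph V) : Prop :=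
  (∀ v, Nat.card (G.neighborSet v) ≤ Δ) ∧ G.CliqueFree (ω + 1)

/-- `ex_u(p, H, {K_{1,Δ+1}, K_{ω+1}})`: the largest number of copies of `H` in a finite graph with all degrees at most `Δ`
and no `K_{ω+1}` that has exactly `p` copies of `K_u` -/
noncomputable def ex (u Δ ω : ℕ) {W : Type} (H : SimpleGraph W) (p : ℕ) : ℕ :=
  sSup {m | ∃ (n : ℕ) (G : SimpleGraph (Fin n)), Adm Δ ω G ∧ num (⊤ : SimpleGraph (Fin u)) G = p ∧ m = num H G}

/-- auxiliary: the number of `j`-cliques -/
noncomputable def kc {V : Type} (G : SimpleGraph V) (j : ℕ) : ℕ := Nat.card {s : Finset V // G.IsNClique j s}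

end Pool.Agent.T2H08.KC
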