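import Pool.Agent.T2H08.KC.Defs

/-! # The case `ω = u + 1`: definitions -/

set_option autoImplicit false

namespace Pool.Agent.T2H08.KC

open Finset

/-- the join of `K_u` with `s` independent vertices -/
def joinKI (u s : ℕ) : SimpleGraph (Fin u ⊕ Fin s) where
  Adj a b := a ≠ b ∧ (a.isLeft = true ∨ b.isLeft = true)
  symm := ⟨fun _ _ h => ⟨h.1.symm, h.2.symm⟩⟩
  loopless := ⟨fun _ h => h.1 rfl⟩

/-- integer vectors of part sizes with all degrees at most `Δ` in the complete `(u+1)`-partite graph -/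
def Feas (u Δ : ℕ) (x : Fin (u + 1) → ℕ) : Prop := (∀ i, 1 ≤ x i) ∧ ∀ j, ∑ i ∈ univ.erase j, x i ≤ Δ

/-- copies of `joinKI u s` per `u`-clique in the complete `(u+1)`-partite graph with parts `x` -/
noncomputable def rat (u s : ℕ) (x : Fin (u + 1) → ℕ) : ℝ :=
  (∑ i, ((x i).choose s : ℝ) / (x i : ℝ)) / (∑ i, 1 / (x i : ℝ))

/-- the maximum of `rat` -/
noncomputable def mx (u s Δ : ℕ) : ℝ := sSup (rat u s '' {x | Feas u Δ x})

/-- the limiting optimisation problem -/
noncomputable def kap (u s : ℕ) : ℝ :=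
  sSup {r | ∃ y : Fin (u + 1) → ℝ, (∀ i, 0 < y i) ∧ (∀ j, ∑ i ∈ univ.erase j, y i ≤ 1) ∧
    r = (∑ i, y i ^ (s - 1)) / (∑ i, 1 / y i)}

/-- auxiliary: the number of common neighbours of `Q` -/
noncomputable def cn {V : Type} (G : SimpleGraph V) (Q : Finset V) : ℕ := Nat.card {w // ∀ v ∈ Q, G.Adj v w}

open Classical in
/-- auxiliary: the number of pairs (`u`-clique `Q`, `s`-set of common neighbours of `Q`) -/
noncomputable def ww {n : ℕ} (G : SimpleGraph (Fin n)) (u s : ℕ) : ℕ :=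
  ∑ Q ∈ univ.filter (fun Q : Finset (Fin n) => G.IsNClique u Q), (cn G Q).choose s

end Pool.Agent.T2H08.KC
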