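import Mathlib

/-! # The constant of the asymptotic formula for `ω = u + 1` -/

set_option autoImplicit false

namespace Pool.Agent.T2H08.KC

/-- the value of the limiting problem at the vector `(α, …, α, 1 - (u-1) α)` with `u` entries `α` -/
noncomputable def rat1 (u s : ℕ) (α : ℝ) : ℝ :=
  ((u : ℝ) * α ^ (s - 1) + (1 - ((u : ℝ) - 1) * α) ^ (s - 1)) /
    ((u : ℝ) / α + 1 / (1 - ((u : ℝ) - 1) * α))

/-- the supremum of `rat1` over `0 < α ≤ 1/u` -/
noncomputable def kap1 (u s : ℕ) : ℝ := sSup {r | ∃ α : ℝ, 0 < α ∧ (u : ℝ) * α ≤ 1 ∧ r = rat1 u s α}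

end Pool.Agent.T2H08.KC
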