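import Pool.Agent.T2H08.KC.Stm

/-! # LIM: Fekete's lemma for superadditive sequences -/

set_option autoImplicit false

namespace Pool.Agent.T2H08.KC

open Finset Filter Topology

theorem pLIM : S_LIM := by
  intro e A B p₀ hsup hA hp₀ hB
  have hs : Subadditive (fun p => -e p) := by
    intro p q
    have := hsup p q
    show -e (p + q) ≤ -e p + -e q
    linarith
  have hbdd : BddBelow (Set.range fun n : ℕ => (fun p => -e p) n / n) := by
    refine ⟨-|A|, ?_⟩
    rintro x ⟨n, rfl⟩
    show -|A| ≤ -e n / n
    rcases Nat.eq_zero_or_pos n with h | h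
    · subst h
      simp
    · have hn : (0 : ℝ) < n := by exact_mod_cast h
      rw [le_div_iff₀ hn]
      have h1 := hA n
      have h2 : A * n ≤ |A| * n := mul_le_mul_of_nonneg_right (le_abs_self A) hn.le
      linarith
  have hlim := hs.tendsto_lim hbdd
  refine ⟨-hs.lim, ?_, ?_, ?_⟩
  · have h1 := hlim.neg
    refine h1.congr fun n => ?_
    show -(-e n / n) = e n / n
    rw [neg_div, neg_neg]
  · have h1 := hs.lim_le_div hbdd hp₀.ne'
    have hp : (0 : ℝ) < p₀ := by exact_mod_cast hp₀
    have h2 : hs.lim ≤ -e p₀ / p₀ := h1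
    have h3 : B ≤ e p₀ / p₀ := by
      rw [le_div_iff₀ hp]
      exact hB
    rw [neg_div] at h2
    linarith
  · have h1 := hlim.neg
    refine le_of_tendsto h1 ?_
    filter_upwards [eventually_gt_atTop 0] with n hn
    have hn' : (0 : ℝ) < n := by exact_mod_cast hn
    show -(-e n / n) ≤ A
    rw [neg_div, neg_neg, div_le_iff₀ hn']
    exact hA n

end Pool.Agent.T2H08.KC
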