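import Pool.Agent.T2H08.KC.Stm
import Pool.Agent.T2H08.KC.LIM
import Pool.Agent.T2H08.KC.ASY

/-! # Final assembly for the clique case -/

set_option autoImplicit false

namespace Pool.Agent.T2H08.KC

open Finset Filter Topology

theorem Adm.mono {Δ Δ' ω ω' : ℕ} {V : Type} {G : SimpleGraph V} (h : Adm Δ ω G) (hΔ : Δ ≤ Δ') (hω : ω ≤ ω') :
    Adm Δ' ω' G :=
  ⟨fun v => (h.1 v).trans hΔ, h.2.mono (by omega)⟩

theorem final (hCPY : S_CPY) (hPRD : S_PRD) (hTUR : S_TUR) (hUNI : S_UNI)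
    (u t ω : ℕ) (hu : 2 ≤ u) (hut : u ≤ t) (htω : t ≤ ω) :
    (∀ (Δ n : ℕ) (G : SimpleGraph (Fin n)), Adm Δ ω G →
      (num (⊤ : SimpleGraph (Fin t)) G : ℝ) ≤
        ((ω.choose t : ℝ) / (ω.choose u : ℝ)) * ((Δ : ℝ) / ((ω : ℝ) - 1)) ^ (t - u) *
          (num (⊤ : SimpleGraph (Fin u)) G : ℝ)) ∧
    ∃ c : ℕ → ℝ,
      (∀ Δ, ω ≤ Δ + 1 → Tendsto (fun p : ℕ => (ex u Δ ω (⊤ : SimpleGraph (Fin t)) p : ℝ) / p) atTop (𝓝 (c Δ))) ∧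
      (∀ Δ, ω ≤ Δ + 1 →
        ((ω.choose t : ℝ) / (ω.choose u : ℝ)) * ((Δ / (ω - 1) : ℕ) : ℝ) ^ (t - u) ≤ c Δ ∧
        c Δ ≤ ((ω.choose t : ℝ) / (ω.choose u : ℝ)) * ((Δ : ℝ) / ((ω : ℝ) - 1)) ^ (t - u)) ∧
      (∀ q : ℕ, 1 ≤ q → c ((ω - 1) * q) = ((ω.choose t : ℝ) / (ω.choose u : ℝ)) * (q : ℝ) ^ (t - u)) ∧
      Tendsto (fun Δ : ℕ => c Δ /
        (((ω.choose t : ℝ) / (ω.choose u : ℝ)) * ((Δ : ℝ) / ((ω : ℝ) - 1)) ^ (t - u))) atTop (𝓝 1) := by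
  have hω2 : 2 ≤ ω := by omega
  have hω1 : (0 : ℝ) < (ω : ℝ) - 1 := by
    have : (2 : ℝ) ≤ (ω : ℝ) := by exact_mod_cast hω2
    linarith
  have hcu : (0 : ℝ) < (ω.choose u : ℝ) := by exact_mod_cast Nat.choose_pos (hut.trans htω)
  have hct : (0 : ℝ) < (ω.choose t : ℝ) := by exact_mod_cast Nat.choose_pos htω
  set F : ℝ := (ω.choose t : ℝ) / (ω.choose u : ℝ) with hF
  have hF0 : 0 < F := div_pos hct hcu
  have hwcast : (((ω - 1 : ℕ) : ℝ)) = (ω : ℝ) - 1 := by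
    push_cast [Nat.cast_sub (show 1 ≤ ω by omega)]
    ring
  have hgraph : ∀ (Δ n : ℕ) (G : SimpleGraph (Fin n)), Adm Δ ω G →
      (num (⊤ : SimpleGraph (Fin t)) G : ℝ) ≤ F * ((Δ : ℝ) / ((ω : ℝ) - 1)) ^ (t - u) *
          (num (⊤ : SimpleGraph (Fin u)) G : ℝ) := by
    intro Δ n G hG
    rw [hCPY, hCPY]
    exact hPRD n Δ ω u t G hG hu hut htω
  -- the set of values
  let S : ℕ → ℕ → Set ℕ := fun Δ p => {m | ∃ (n : ℕ) (G : SimpleGraph (Fin n)), Adm Δ ω G ∧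
    num (⊤ : SimpleGraph (Fin u)) G = p ∧ m = num (⊤ : SimpleGraph (Fin t)) G}
  have hSex : ∀ Δ p, ex u Δ ω (⊤ : SimpleGraph (Fin t)) p = sSup (S Δ p) := fun Δ p => rfl
  have hSle : ∀ Δ p, ∀ m ∈ S Δ p, (m : ℝ) ≤ F * ((Δ : ℝ) / ((ω : ℝ) - 1)) ^ (t - u) * (p : ℝ) := by
    rintro Δ p m ⟨n, G, hG, hp, rfl⟩
    have := hgraph Δ n G hG
    rw [hp] at this
    exact this
  have hSbdd : ∀ Δ p, BddAbove (S Δ p) := by
    intro Δ p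
    refine ⟨⌊F * ((Δ : ℝ) / ((ω : ℝ) - 1)) ^ (t - u) * (p : ℝ)⌋₊, ?_⟩
    intro m hm
    exact Nat.le_floor (hSle Δ p m hm)
  have hSne : ∀ Δ, ω ≤ Δ + 1 → ∀ p, (S Δ p).Nonempty := by
    intro Δ hΔ p
    obtain ⟨n₁, G₁, hG₁, hk₁⟩ := hTUR u 1
    have hG₁' : Adm Δ ω G₁ := hG₁.mono (by omega) (hut.trans htω)
    have hmain : ∃ (n : ℕ) (G : SimpleGraph (Fin n)), Adm Δ ω G ∧ kc G u = p := by
      induction p with
      | zero =>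
        obtain ⟨n₀, G₀, hG₀, hk₀⟩ := hTUR 0 1
        refine ⟨n₀, G₀, hG₀.mono (by omega) (by omega), ?_⟩
        rw [hk₀, Nat.choose_eq_zero_of_lt (by omega), zero_mul]
      | succ p ih =>
        obtain ⟨n, G, hG, hk⟩ := ih
        obtain ⟨K, hK, hKk⟩ := hUNI n n₁ G G₁
        refine ⟨_, K, hK Δ ω hG hG₁', ?_⟩
        rw [hKk u (by omega), hk, hk₁, Nat.choose_self, one_pow, mul_one]
    obtain ⟨n, G, hG, hk⟩ := hmain
    exact ⟨_, n, G, hG, by rw [hCPY, hk], rfl⟩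
  have hSmem : ∀ Δ, ω ≤ Δ + 1 → ∀ p, ex u Δ ω (⊤ : SimpleGraph (Fin t)) p ∈ S Δ p := by
    intro Δ hΔ p
    rw [hSex]
    exact Nat.sSup_mem (hSne Δ hΔ p) (hSbdd Δ p)
  have hlimit : ∀ Δ, ω ≤ Δ + 1 → ∃ c : ℝ,
      Tendsto (fun p : ℕ => (ex u Δ ω (⊤ : SimpleGraph (Fin t)) p : ℝ) / p) atTop (𝓝 c) ∧
      F * ((Δ / (ω - 1) : ℕ) : ℝ) ^ (t - u) ≤ c ∧ c ≤ F * ((Δ : ℝ) / ((ω : ℝ) - 1)) ^ (t - u) := by
    intro Δ hΔ
    set q : ℕ := Δ / (ω - 1) with hq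
    have hq1 : 1 ≤ q := by
      rw [hq]
      exact (Nat.one_le_div_iff (by omega)).2 (by omega)
    have hqΔ : (ω - 1) * q ≤ Δ := by
      rw [hq]
      exact Nat.mul_div_le Δ (ω - 1)
    refine pLIM (fun p => (ex u Δ ω (⊤ : SimpleGraph (Fin t)) p : ℝ)) _ _ (ω.choose u * q ^ u) ?_ ?_ ?_ ?_
    · intro p p'
      obtain ⟨n, G, hG, hp, hm⟩ := hSmem Δ hΔ p
      obtain ⟨n', G', hG', hp', hm'⟩ := hSmem Δ hΔ p'
      obtain ⟨K, hK, hKk⟩ := hUNI n n' G G'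
      have hmem : ex u Δ ω (⊤ : SimpleGraph (Fin t)) p + ex u Δ ω (⊤ : SimpleGraph (Fin t)) p' ∈ S Δ (p + p') := by
        refine ⟨_, K, hK Δ ω hG hG', ?_, ?_⟩
        · rw [hCPY, hKk u (by omega), ← hCPY, ← hCPY, hp, hp']
        · rw [hCPY, hKk t (by omega), ← hCPY, ← hCPY, ← hm, ← hm']
      have hle := le_csSup (hSbdd Δ (p + p')) hmem
      rw [← hSex] at hle
      exact_mod_cast hle
    · intro p
      exact hSle Δ p _ (hSmem Δ hΔ p)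
    · have : 0 < ω.choose u := Nat.choose_pos (hut.trans htω)
      positivity
    · obtain ⟨n, G, hG, hk⟩ := hTUR ω q
      have hmem : ω.choose t * q ^ t ∈ S Δ (ω.choose u * q ^ u) := by
        refine ⟨n, G, hG.mono hqΔ le_rfl, ?_, ?_⟩
        · rw [hCPY, hk]
        · rw [hCPY, hk]
      have hle := le_csSup (hSbdd Δ _) hmem
      rw [← hSex] at hle
      have hle' : ((ω.choose t * q ^ t : ℕ) : ℝ) ≤ (ex u Δ ω (⊤ : SimpleGraph (Fin t)) (ω.choose u * q ^ u) : ℝ) := by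
        exact_mod_cast hle
      refine le_trans (le_of_eq ?_) hle'
      push_cast
      have hqt : (q : ℝ) ^ t = (q : ℝ) ^ (t - u) * (q : ℝ) ^ u := by
        rw [← pow_add, Nat.sub_add_cancel hut]
      rw [hqt, hF]
      field_simp
  classical
  let c : ℕ → ℝ := fun Δ => if h : ω ≤ Δ + 1 then (hlimit Δ h).choose else 0
  have hc : ∀ Δ (h : ω ≤ Δ + 1), c Δ = (hlimit Δ h).choose := fun Δ h => dif_pos h
  have hc1 : ∀ Δ, ω ≤ Δ + 1 →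
      F * ((Δ / (ω - 1) : ℕ) : ℝ) ^ (t - u) ≤ c Δ ∧ c Δ ≤ F * ((Δ : ℝ) / ((ω : ℝ) - 1)) ^ (t - u) := by
    intro Δ h
    rw [hc Δ h]
    exact (hlimit Δ h).choose_spec.2
  refine ⟨hgraph, c, ?_, hc1, ?_, ?_⟩
  · intro Δ h
    rw [hc Δ h]
    exact (hlimit Δ h).choose_spec.1
  · intro q hq
    have hle : ω ≤ (ω - 1) * q + 1 := by
      have : (ω - 1) * 1 ≤ (ω - 1) * q := Nat.mul_le_mul_left _ hq
      omega
    obtain ⟨h1, h2⟩ := hc1 ((ω - 1) * q) hle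
    rw [Nat.mul_div_cancel_left q (by omega)] at h1
    have h3 : ((((ω - 1) * q : ℕ) : ℝ)) / ((ω : ℝ) - 1) = q := by
      rw [Nat.cast_mul, hwcast]
      field_simp
    rw [h3] at h2
    exact le_antisymm h2 h1
  · have h := pASY (ω - 1) (t - u) F c (by omega) hF0 (by
      filter_upwards [eventually_ge_atTop ω] with D hD
      have := hc1 D (by omega)
      rw [hwcast]
      exact this)
    rw [hwcast] at h
    exact h

end Pool.Agent.T2H08.KC
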