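import Pool.Agent.T2H08.KC.Stm2
import Pool.Agent.T2H08.KC.Fin

/-! # Final assembly for the case `ω = u + 1` -/

set_option autoImplicit false

namespace Pool.Agent.T2H08.KC

open Finset Filter Topology

theorem final2 (hCPY : S_CPY) (hTUR : S_TUR) (hCPB : S_CPB) (hUBB : S_UBB) (hMPT : S_MPT) (hUN2 : S_UN2)
    (hATT : S_ATT) (u s : ℕ) (hu : 1 ≤ u) (hs : 2 ≤ s) (Δ : ℕ) (hΔ : u ≤ Δ) :
    Tendsto (fun p : ℕ => (ex u Δ (u + 1) (joinKI u s) p : ℝ) / p) atTop (𝓝 (mx u s Δ)) := by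
  obtain ⟨⟨x, hx, hxm⟩, hmx⟩ := hATT u s Δ hu hΔ
  have hsumpos : ∀ y : Fin (u + 1) → ℕ, Feas u Δ y → 0 < ∑ i, 1 / (y i : ℝ) := by
    intro y hy
    refine Finset.sum_pos (fun i _ => ?_) univ_nonempty
    have : (0 : ℝ) < y i := by exact_mod_cast (hy.1 i)
    positivity
  have hmx0 : 0 ≤ mx u s Δ := by
    rw [← hxm, rat]
    positivity
  have hgraph : ∀ (n : ℕ) (G : SimpleGraph (Fin n)), Adm Δ (u + 1) G →
      (num (joinKI u s) G : ℝ) ≤ mx u s Δ * (num (⊤ : SimpleGraph (Fin u)) G : ℝ) := by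
    intro n G hG
    rw [hCPB n u s G hs, hCPY]
    refine hUBB n Δ u s G (mx u s Δ) hG (by omega) hmx0 ?_
    intro y hy
    have h1 := hmx y hy
    rw [rat, div_le_iff₀ (hsumpos y hy)] at h1
    exact h1
  let S : ℕ → Set ℕ := fun p => {m | ∃ (n : ℕ) (G : SimpleGraph (Fin n)), Adm Δ (u + 1) G ∧
    num (⊤ : SimpleGraph (Fin u)) G = p ∧ m = num (joinKI u s) G}
  have hSex : ∀ p, ex u Δ (u + 1) (joinKI u s) p = sSup (S p) := fun p => rfl
  have hSle : ∀ p, ∀ m ∈ S p, (m : ℝ) ≤ mx u s Δ * (p : ℝ) := by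
    rintro p m ⟨n, G, hG, hp, rfl⟩
    have := hgraph n G hG
    rw [hp] at this
    exact this
  have hSbdd : ∀ p, BddAbove (S p) := by
    intro p
    refine ⟨⌊mx u s Δ * (p : ℝ)⌋₊, ?_⟩
    intro m hm
    exact Nat.le_floor (hSle p m hm)
  have hSne : ∀ p, (S p).Nonempty := by
    intro p
    obtain ⟨n₁, G₁, hG₁, hk₁⟩ := hTUR u 1
    have hG₁' : Adm Δ (u + 1) G₁ := hG₁.mono (by omega) (by omega)
    have hmain : ∃ (n : ℕ) (G : SimpleGraph (Fin n)), Adm Δ (u + 1) G ∧ kc G u = p := by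
      induction p with
      | zero =>
        obtain ⟨n₀, G₀, hG₀, hk₀⟩ := hTUR 0 1
        refine ⟨n₀, G₀, hG₀.mono (by omega) (by omega), ?_⟩
        rw [hk₀, Nat.choose_eq_zero_of_lt (by omega), zero_mul]
      | succ p ih =>
        obtain ⟨n, G, hG, hk⟩ := ih
        obtain ⟨K, hK, hKk, _⟩ := hUN2 n n₁ G G₁
        refine ⟨_, K, hK Δ (u + 1) hG hG₁', ?_⟩
        rw [hKk u (by omega), hk, hk₁, Nat.choose_self, one_pow, mul_one]
    obtain ⟨n, G, hG, hk⟩ := hmain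
    exact ⟨_, n, G, hG, by rw [hCPY, hk], rfl⟩
  have hSmem : ∀ p, ex u Δ (u + 1) (joinKI u s) p ∈ S p := by
    intro p
    rw [hSex]
    exact Nat.sSup_mem (hSne p) (hSbdd p)
  obtain ⟨n₂, G₂, hG₂, hk₂, hw₂⟩ := hMPT u Δ x hx
  have hxpos : ∀ i, (0 : ℝ) < x i := fun i => by exact_mod_cast (hx.1 i)
  have hprod : ∀ i, (∏ j ∈ univ.erase i, (x j : ℝ)) = (∏ j, (x j : ℝ)) / x i := by
    intro i
    rw [eq_div_iff (hxpos i).ne', mul_comm]
    exact Finset.mul_prod_erase univ (fun j => (x j : ℝ)) (mem_univ i)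
  obtain ⟨c, hc, hc1, hc2⟩ := pLIM (fun p => (ex u Δ (u + 1) (joinKI u s) p : ℝ)) (mx u s Δ) (mx u s Δ)
    (kc G₂ u) (by
      intro p p'
      obtain ⟨n, G, hG, hp, hm⟩ := hSmem p
      obtain ⟨n', G', hG', hp', hm'⟩ := hSmem p'
      obtain ⟨K, hK, hKk, hKw⟩ := hUN2 n n' G G'
      have hmem : ex u Δ (u + 1) (joinKI u s) p + ex u Δ (u + 1) (joinKI u s) p' ∈ S (p + p') := by
        refine ⟨_, K, hK Δ (u + 1) hG hG', ?_, ?_⟩
        · rw [hCPY, hKk u (by omega), ← hCPY, ← hCPY, hp, hp']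
        · rw [hCPB _ u s K hs, hKw u s (by omega), ← hCPB _ u s G hs, ← hCPB _ u s G' hs, ← hm, ← hm']
      have hle := le_csSup (hSbdd (p + p')) hmem
      rw [← hSex] at hle
      exact_mod_cast hle)
    (fun p => hSle p _ (hSmem p))
    (by
      rw [hk₂]
      refine Finset.sum_pos (fun i _ => ?_) univ_nonempty
      exact Finset.prod_pos fun j _ => hx.1 j)
    (by
      have hmem : ww G₂ u s ∈ S (kc G₂ u) := ⟨n₂, G₂, hG₂, by rw [hCPY], by rw [hCPB _ u s G₂ hs]⟩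
      have hle := le_csSup (hSbdd _) hmem
      rw [← hSex] at hle
      have hle' : (ww G₂ u s : ℝ) ≤ (ex u Δ (u + 1) (joinKI u s) (kc G₂ u) : ℝ) := by exact_mod_cast hle
      refine le_trans (le_of_eq ?_) hle'
      rw [hw₂ s, hk₂, ← hxm, rat]
      push_cast
      simp only [hprod]
      have h1 : ∑ i, (∏ j, (x j : ℝ)) / (x i : ℝ) = (∏ j, (x j : ℝ)) * ∑ i, 1 / (x i : ℝ) := by
        rw [Finset.mul_sum]
        exact Finset.sum_congr rfl fun i _ => by ring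
      have h2 : ∑ i, (∏ j, (x j : ℝ)) / (x i : ℝ) * ((x i).choose s : ℝ) =
          (∏ j, (x j : ℝ)) * ∑ i, ((x i).choose s : ℝ) / (x i : ℝ) := by
        rw [Finset.mul_sum]
        exact Finset.sum_congr rfl fun i _ => by ring
      rw [h1, h2]
      have h3 := (hsumpos x hx).ne'
      field_simp)
  have : c = mx u s Δ := le_antisymm hc2 hc1
  rw [← this]
  exact hc

end Pool.Agent.T2H08.KC
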