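import Pool.Agent.T2H08.KC.Stm2
import Pool.Agent.T2H08.KC.Defs3

/-! # The limiting optimisation problem has one parameter -/

set_option autoImplicit false

namespace Pool.Agent.T2H08.KC

open Finset Filter Topology

namespace PkgKAP

/-- chord inequality -/
theorem chord {ψ : ℝ → ℝ} {c0 c B x : ℝ} (hconv : ConvexOn ℝ (Set.Icc c0 1) ψ) (hc : c0 ≤ c) (hcB : c < B)
    (hB1 : B ≤ 1) (hx1 : c ≤ x) (hx2 : x ≤ B) : ψ x - ψ c ≤ (x - c) * ((ψ B - ψ c) / (B - c)) := by
  have hBc : 0 < B - c := by linarith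
  have h := hconv.2 (show c ∈ Set.Icc c0 1 from ⟨hc, by linarith⟩)
    (show B ∈ Set.Icc c0 1 from ⟨by linarith, hB1⟩) (show 0 ≤ (B - x) / (B - c) from div_nonneg (by linarith) hBc.le)
    (show 0 ≤ (x - c) / (B - c) from div_nonneg (by linarith) hBc.le) (by
      rw [← add_div, show B - x + (x - c) = B - c by ring, div_self hBc.ne'])
  have e : ((B - x) / (B - c)) • c + ((x - c) / (B - c)) • B = x := by
    simp only [smul_eq_mul]
    field_simp
    ring
  rw [e] at h
  simp only [smul_eq_mul] at h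
  have e2 : (B - x) / (B - c) * ψ c + (x - c) / (B - c) * ψ B - ψ c = (x - c) * ((ψ B - ψ c) / (B - c)) := by
    field_simp
    ring
  linarith

/-- reduction to vectors with two different entries -/
theorem reduce {u : ℕ} (hu : 1 ≤ u) {ψ : ℝ → ℝ} {c0 : ℝ}
    (hconc : ConcaveOn ℝ (Set.Ioc 0 c0) ψ) (hconv : ConvexOn ℝ (Set.Icc c0 1) ψ)
    (hmono : MonotoneOn ψ (Set.Ioi 0))
    (H : ∀ α : ℝ, 0 < α → (u : ℝ) * α ≤ 1 → (u : ℝ) * ψ α + ψ (1 - ((u : ℝ) - 1) * α) ≤ 0)
    (y : Fin (u + 1) → ℝ) (hy : ∀ i, 0 < y i) (hsum : ∀ j, ∑ i ∈ univ.erase j, y i ≤ 1) :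
    ∑ i, ψ (y i) ≤ 0 := by
  classical
  obtain ⟨i0, _, hi0⟩ := Finset.exists_min_image univ y univ_nonempty
  have hi0' : ∀ i, y i0 ≤ y i := fun i => hi0 i (mem_univ i)
  have hScard : (univ.erase i0 : Finset (Fin (u + 1))).card = u := by
    rw [card_erase_of_mem (mem_univ i0), card_univ, Fintype.card_fin]
    rfl
  have hSne : (univ.erase i0 : Finset (Fin (u + 1))).Nonempty := by
    rw [← card_pos, hScard]; omega
  obtain ⟨i1, hi1S, hi1⟩ := Finset.exists_max_image (univ.erase i0) y hSne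
  set S : Finset (Fin (u + 1)) := univ.erase i0 with hS
  set T : Finset (Fin (u + 1)) := S.erase i1 with hT
  have hTcard : T.card = u - 1 := by rw [hT, card_erase_of_mem hi1S, hScard]
  have hTcardR : (T.card : ℝ) = (u : ℝ) - 1 := by
    rw [hTcard]
    push_cast [Nat.cast_sub hu]
    ring
  set c : ℝ := max c0 (y i0) with hc
  have hcc0 : c0 ≤ c := le_max_left _ _
  have hcy : y i0 ≤ c := le_max_right _ _
  set z : Fin (u + 1) → ℝ := fun i => min (y i) c with hz
  have hzy : ∀ i, z i ≤ y i := fun i => min_le_left _ _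
  have hzc : ∀ i, z i ≤ c := fun i => min_le_right _ _
  have hzlow : ∀ i, y i0 ≤ z i := fun i => le_min (hi0' i) hcy
  have hzpos : ∀ i, 0 < z i := fun i => (hy i0).trans_le (hzlow i)
  have hTy : ∀ i ∈ T, y i ≤ y i1 := fun i hi => hi1 i (mem_of_mem_erase hi)
  set B : ℝ := y i1 + ∑ i ∈ T, (y i - z i) with hB
  have hdiff : 0 ≤ ∑ i ∈ T, (y i - z i) := Finset.sum_nonneg fun i _ => sub_nonneg.2 (hzy i)
  have hBy : y i1 ≤ B := by rw [hB]; linarith
  have hBz : B + ∑ i ∈ T, z i ≤ 1 := by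
    have h1 := hsum i0
    have h2 : ∑ i ∈ S, y i = y i1 + ∑ i ∈ T, y i := (Finset.add_sum_erase S y hi1S).symm
    have h3 : ∑ i ∈ T, (y i - z i) = ∑ i ∈ T, y i - ∑ i ∈ T, z i := Finset.sum_sub_distrib _ _
    rw [hB, h3]
    have h4 : ∑ i ∈ S, y i ≤ 1 := h1
    linarith
  have hB1 : B ≤ 1 := by
    have : 0 ≤ ∑ i ∈ T, z i := Finset.sum_nonneg fun i _ => (hzpos i).le
    linarith
  -- step 1
  have step1 : ∑ i ∈ T, ψ (y i) + ψ (y i1) ≤ ∑ i ∈ T, ψ (z i) + ψ B := by
    rcases le_or_gt (y i1) c with h | h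
    · have hzeq : ∀ i ∈ T, z i = y i := fun i hi => min_eq_left ((hTy i hi).trans h)
      have h1 : ∑ i ∈ T, ψ (z i) = ∑ i ∈ T, ψ (y i) := Finset.sum_congr rfl fun i hi => by rw [hzeq i hi]
      have h2 : B = y i1 := by
        rw [hB, Finset.sum_eq_zero fun i hi => by rw [hzeq i hi, sub_self], add_zero]
      rw [h1, h2]
    · have hcB : c < B := h.trans_le hBy
      set m : ℝ := (ψ B - ψ c) / (B - c) with hm
      have h1 : ψ (y i1) - ψ c ≤ (y i1 - c) * m := chord hconv hcc0 hcB hB1 h.le hBy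
      have h2 : ∀ i ∈ T, ψ (y i) - ψ (z i) ≤ (y i - z i) * m := by
        intro i hi
        rcases le_or_gt (y i) c with h' | h'
        · have : z i = y i := min_eq_left h'
          rw [this, sub_self, sub_self, zero_mul]
        · have : z i = c := min_eq_right h'.le
          rw [this]
          exact chord hconv hcc0 hcB hB1 h'.le ((hTy i hi).trans hBy)
      have h3 := Finset.sum_le_sum h2
      rw [Finset.sum_sub_distrib, ← Finset.sum_mul] at h3
      have h4 : (∑ i ∈ T, (y i - z i)) * m + (y i1 - c) * m = (B - c) * m := by rw [hB]; ring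
      have h5 : (B - c) * m = ψ B - ψ c := by
        rw [hm]
        have : B - c ≠ 0 := by linarith
        field_simp
      linarith
  -- the average
  obtain ⟨α, hα0, hα1, hα2, hα3⟩ : ∃ α : ℝ, y i0 ≤ α ∧ α ≤ B ∧ ((u : ℝ) - 1) * α = ∑ i ∈ T, z i ∧
      ∑ i ∈ T, ψ (z i) ≤ ((u : ℝ) - 1) * ψ α := by
    rcases T.eq_empty_or_nonempty with hTe | hTne
    · have hu1 : (u : ℝ) - 1 = 0 := by rw [← hTcardR, hTe]; simp
      refine ⟨y i0, le_rfl, (hi0' i1).trans hBy, ?_, ?_⟩
      · rw [hu1, hTe]; simp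
      · rw [hu1, hTe]; simp
    · have hTpos : 0 < (T.card : ℝ) := by exact_mod_cast hTne.card_pos
      refine ⟨(∑ i ∈ T, z i) / T.card, ?_, ?_, ?_, ?_⟩
      · rw [le_div_iff₀ hTpos]
        have := Finset.card_nsmul_le_sum T z (y i0) fun i _ => hzlow i
        rw [nsmul_eq_mul] at this
        linarith
      · rw [div_le_iff₀ hTpos]
        have := Finset.sum_le_card_nsmul T z (y i1) fun i hi => (hzy i).trans (hTy i hi)
        rw [nsmul_eq_mul] at this
        nlinarith
      · rw [← hTcardR]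
        field_simp
      · rw [← hTcardR]
        rcases le_or_gt (y i0) c0 with h | h
        · have hceq : c = c0 := max_eq_left h
          have hmem : ∀ i ∈ T, z i ∈ Set.Ioc (0 : ℝ) c0 := fun i _ => ⟨hzpos i, by rw [← hceq]; exact hzc i⟩
          have hJ := hconc.le_map_sum (t := T) (w := fun _ => (1 : ℝ) / T.card) (p := z)
            (fun i _ => by positivity) (by
              rw [Finset.sum_const, nsmul_eq_mul]
              field_simp) hmem
          simp only [smul_eq_mul] at hJ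
          rw [← Finset.mul_sum, ← Finset.mul_sum] at hJ
          have e1 : 1 / (T.card : ℝ) * ∑ i ∈ T, z i = (∑ i ∈ T, z i) / T.card := by ring
          rw [e1] at hJ
          have h6 : (T.card : ℝ) * (1 / (T.card : ℝ) * ∑ i ∈ T, ψ (z i)) ≤
              (T.card : ℝ) * ψ ((∑ i ∈ T, z i) / T.card) := mul_le_mul_of_nonneg_left hJ hTpos.le
          have e2 : (T.card : ℝ) * (1 / (T.card : ℝ) * ∑ i ∈ T, ψ (z i)) = ∑ i ∈ T, ψ (z i) := by
            field_simp
          rw [e2] at h6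
          exact h6
        · have hceq : c = y i0 := max_eq_right h.le
          have hzeq : ∀ i ∈ T, z i = y i0 := fun i _ => le_antisymm (by rw [← hceq]; exact hzc i) (hzlow i)
          have e1 : ∑ i ∈ T, z i = (T.card : ℝ) * y i0 := by
            rw [Finset.sum_congr rfl hzeq, Finset.sum_const, nsmul_eq_mul]
          have e2 : ∑ i ∈ T, ψ (z i) = (T.card : ℝ) * ψ (y i0) := by
            rw [Finset.sum_congr rfl fun i hi => by rw [hzeq i hi], Finset.sum_const, nsmul_eq_mul]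
          rw [e1, e2, mul_div_cancel_left₀ _ hTpos.ne']
  have hαpos : 0 < α := (hy i0).trans_le hα0
  have hsumS : ((u : ℝ) - 1) * α + B ≤ 1 := by
    rw [hα2]
    linarith
  have huα : (u : ℝ) * α ≤ 1 := by nlinarith
  have hBpos : 0 < B := (hy i1).trans_le hBy
  have hψB : ψ B ≤ ψ (1 - ((u : ℝ) - 1) * α) := by
    refine hmono (show B ∈ Set.Ioi 0 from hBpos) (show (1 - ((u : ℝ) - 1) * α) ∈ Set.Ioi 0 from ?_) ?_
    · show 0 < 1 - ((u : ℝ) - 1) * α
      linarith
    · linarith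
  have hψ0 : ψ (y i0) ≤ ψ α := hmono (show y i0 ∈ Set.Ioi 0 from hy i0) (show α ∈ Set.Ioi 0 from hαpos) hα0
  have htot : ∑ i, ψ (y i) = ψ (y i0) + (∑ i ∈ T, ψ (y i) + ψ (y i1)) := by
    rw [← Finset.add_sum_erase univ (fun i => ψ (y i)) (mem_univ i0),
      ← Finset.add_sum_erase S (fun i => ψ (y i)) hi1S]
    ring
  rw [htot]
  have := H α hαpos huα
  linarith

/-- the function `y^(m+1) - R/y` -/
noncomputable def psi (m : ℕ) (R y : ℝ) : ℝ := y ^ (m + 1) - R / y

theorem hd1 (m : ℕ) (R : ℝ) {x : ℝ} (hx : 0 < x) :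
    HasDerivAt (psi m R) (((m : ℝ) + 1) * x ^ m + R / x ^ 2) x := by
  have h1 : HasDerivAt (fun y : ℝ => y ^ (m + 1)) (((m : ℝ) + 1) * x ^ m) x := by
    have := hasDerivAt_pow (m + 1) x
    simpa using this
  have h2 : HasDerivAt (fun y : ℝ => R / y) (-(R / x ^ 2)) x := by
    have := (hasDerivAt_inv hx.ne').const_mul R
    have e : (fun y : ℝ => R * y⁻¹) = fun y : ℝ => R / y := by
      funext y; rw [div_eq_mul_inv]
    rw [e] at this
    have e2 : R * -(x ^ 2)⁻¹ = -(R / x ^ 2) := by rw [div_eq_mul_inv]; ring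
    rwa [e2] at this
  have h3 := h1.sub h2
  have e : ((m : ℝ) + 1) * x ^ m - -(R / x ^ 2) = ((m : ℝ) + 1) * x ^ m + R / x ^ 2 := by ring
  rw [e] at h3
  exact h3

theorem hd2 (m : ℕ) (R : ℝ) {x : ℝ} (hx : 0 < x) :
    HasDerivAt (fun y : ℝ => ((m : ℝ) + 1) * y ^ m + R / y ^ 2)
      (((m : ℝ) + 1) * (m * x ^ (m - 1)) - 2 * R / x ^ 3) x := by
  have h1 : HasDerivAt (fun y : ℝ => ((m : ℝ) + 1) * y ^ m) (((m : ℝ) + 1) * (m * x ^ (m - 1))) x :=
    (hasDerivAt_pow m x).const_mul _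
  have h2 : HasDerivAt (fun y : ℝ => R / y ^ 2) (-(2 * R / x ^ 3)) x := by
    have hp : HasDerivAt (fun y : ℝ => y ^ 2) (2 * x) x := by
      simpa using hasDerivAt_pow 2 x
    have := (hp.inv (by positivity)).const_mul R
    have e2 : R * (-(2 * x) / (x ^ 2) ^ 2) = -(2 * R / x ^ 3) := by
      field_simp
    rw [e2] at this
    have e : (fun y : ℝ => R * ((fun y : ℝ => y ^ 2)⁻¹) y) = fun y : ℝ => R / y ^ 2 := by
      funext y
      rw [div_eq_mul_inv]
      rfl
    rw [e] at this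
    exact this
  have h3 := h1.add h2
  have e : ((m : ℝ) + 1) * (m * x ^ (m - 1)) + -(2 * R / x ^ 3) =
      ((m : ℝ) + 1) * (m * x ^ (m - 1)) - 2 * R / x ^ 3 := by ring
  rw [e] at h3
  exact h3

/-- sign of the second derivative -/
theorem sgn (m : ℕ) (R : ℝ) {x : ℝ} (hx : 0 < x) :
    ((m : ℝ) + 1) * (m * x ^ (m - 1)) - 2 * R / x ^ 3 =
      ((((m : ℝ) + 1) * m) * x ^ (m + 2) - 2 * R) / x ^ 3 := by
  rcases Nat.eq_zero_or_pos m with h | h
  · subst h
    simp
    ring
  · obtain ⟨k, rfl⟩ : ∃ k, m = k + 1 := ⟨m - 1, by omega⟩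
    have : x ^ (k + 1 + 2) = x ^ k * x ^ 3 := by rw [← pow_add]
    rw [this, Nat.add_sub_cancel]
    field_simp

theorem psi_mono (m : ℕ) {R : ℝ} (hR : 0 ≤ R) : MonotoneOn (psi m R) (Set.Ioi 0) := by
  intro x hx y hy hxy
  have hx' : 0 < x := hx
  have hy' : 0 < y := hy
  unfold psi
  have h1 : x ^ (m + 1) ≤ y ^ (m + 1) := pow_le_pow_left₀ hx'.le hxy _
  have h2 : R / y ≤ R / x := div_le_div_of_nonneg_left hR hx' hxy
  linarith

theorem split (m : ℕ) {R : ℝ} (hR : 0 < R) : ∃ c0 : ℝ, 0 < c0 ∧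
    ConcaveOn ℝ (Set.Ioc 0 c0) (psi m R) ∧ ConvexOn ℝ (Set.Icc c0 1) (psi m R) := by
  have hcontIoc : ∀ c0 : ℝ, ContinuousOn (psi m R) (Set.Ioc 0 c0) := fun c0 x hx =>
    (hd1 m R hx.1).continuousAt.continuousWithinAt
  rcases Nat.eq_zero_or_pos m with h | h
  · refine ⟨1, one_pos, ?_, ?_⟩
    · refine concaveOn_of_hasDerivWithinAt2_nonpos (convex_Ioc 0 1) (hcontIoc 1)
        (f' := fun x => ((m : ℝ) + 1) * x ^ m + R / x ^ 2)
        (f'' := fun x => ((m : ℝ) + 1) * (m * x ^ (m - 1)) - 2 * R / x ^ 3) ?_ ?_ ?_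
      · intro x hx
        exact (hd1 m R (interior_subset hx).1).hasDerivWithinAt
      · intro x hx
        exact (hd2 m R (interior_subset hx).1).hasDerivWithinAt
      · intro x hx
        have hx0 : 0 < x := (interior_subset hx).1
        rw [sgn m R hx0, h]
        simp only [Nat.cast_zero, zero_add, mul_zero, zero_mul, zero_sub]
        have : 0 < x ^ 3 := by positivity
        rw [div_le_iff₀ this]
        linarith
    · rw [Set.Icc_self]
      refine ⟨convex_singleton 1, fun x hx y hy a b _ _ hab => ?_⟩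
      have hx1 : x = 1 := hx
      have hy1 : y = 1 := hy
      rw [hx1, hy1, ← add_smul, ← add_smul, hab, one_smul, one_smul]
  · have hm : (0 : ℝ) < ((m : ℝ) + 1) * m := by
      have : (0 : ℝ) < m := by exact_mod_cast h
      positivity
    set K : ℝ := 2 * R / (((m : ℝ) + 1) * m) with hK
    have hK0 : 0 < K := by positivity
    set c0 : ℝ := K ^ (((m + 2 : ℕ) : ℝ)⁻¹) with hc0
    have hc0pos : 0 < c0 := Real.rpow_pos_of_pos hK0 _
    have hc0pow : c0 ^ (m + 2) = K := Real.rpow_inv_natCast_pow hK0.le (by omega)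
    have hKR : ((m : ℝ) + 1) * m * K = 2 * R := by
      rw [hK]
      field_simp
    refine ⟨c0, hc0pos, ?_, ?_⟩
    · refine concaveOn_of_hasDerivWithinAt2_nonpos (convex_Ioc 0 c0) (hcontIoc c0)
        (f' := fun x => ((m : ℝ) + 1) * x ^ m + R / x ^ 2)
        (f'' := fun x => ((m : ℝ) + 1) * (m * x ^ (m - 1)) - 2 * R / x ^ 3) ?_ ?_ ?_
      · intro x hx
        exact (hd1 m R (interior_subset hx).1).hasDerivWithinAt
      · intro x hx
        exact (hd2 m R (interior_subset hx).1).hasDerivWithinAt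
      · intro x hx
        have hx0 : 0 < x := (interior_subset hx).1
        have hxc : x ≤ c0 := (interior_subset hx).2
        rw [sgn m R hx0]
        refine div_nonpos_of_nonpos_of_nonneg ?_ (by positivity)
        have h1 : x ^ (m + 2) ≤ K := by
          rw [← hc0pow]
          exact pow_le_pow_left₀ hx0.le hxc _
        have h2 := mul_le_mul_of_nonneg_left h1 hm.le
        linarith
    · refine convexOn_of_hasDerivWithinAt2_nonneg (convex_Icc c0 1)
        (fun x hx => (hd1 m R (hc0pos.trans_le hx.1)).continuousAt.continuousWithinAt)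
        (f' := fun x => ((m : ℝ) + 1) * x ^ m + R / x ^ 2)
        (f'' := fun x => ((m : ℝ) + 1) * (m * x ^ (m - 1)) - 2 * R / x ^ 3) ?_ ?_ ?_
      · intro x hx
        exact (hd1 m R (hc0pos.trans_le (interior_subset hx).1)).hasDerivWithinAt
      · intro x hx
        exact (hd2 m R (hc0pos.trans_le (interior_subset hx).1)).hasDerivWithinAt
      · intro x hx
        have hxc : c0 ≤ x := (interior_subset hx).1
        have hx0 : 0 < x := hc0pos.trans_le hxc
        rw [sgn m R hx0]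
        refine div_nonneg ?_ (by positivity)
        have h1 : K ≤ x ^ (m + 2) := by
          rw [← hc0pow]
          exact pow_le_pow_left₀ hc0pos.le hxc _
        have h2 := mul_le_mul_of_nonneg_left h1 hm.le
        linarith

end PkgKAP

open PkgKAP

/-- the limiting optimisation problem has one parameter -/
theorem kap_eq (u s : ℕ) (hu : 1 ≤ u) (hs : 2 ≤ s) :
    kap u s = sSup {r | ∃ α : ℝ, 0 < α ∧ (u : ℝ) * α ≤ 1 ∧ r = rat1 u s α} := by
  classical
  obtain ⟨m, rfl⟩ : ∃ m, s = m + 2 := ⟨s - 2, by omega⟩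
  have hu0 : (0 : ℝ) < u := by exact_mod_cast hu
  have hu1 : (1 : ℝ) ≤ u := by exact_mod_cast hu
  set A : Set ℝ := {r | ∃ y : Fin (u + 1) → ℝ, (∀ i, 0 < y i) ∧ (∀ j, ∑ i ∈ univ.erase j, y i ≤ 1) ∧
    r = (∑ i, y i ^ (m + 2 - 1)) / (∑ i, 1 / y i)} with hA
  have hkap : kap u (m + 2) = sSup A := rfl
  set A1 : Set ℝ := {r | ∃ α : ℝ, 0 < α ∧ (u : ℝ) * α ≤ 1 ∧ r = rat1 u (m + 2) α} with hA1
  have hβ : ∀ α : ℝ, 0 < α → (u : ℝ) * α ≤ 1 → 0 < 1 - ((u : ℝ) - 1) * α := by
    intro α h1 h2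
    nlinarith
  have hsub : A1 ⊆ A := by
    rintro r ⟨α, hα, huα, rfl⟩
    have hb := hβ α hα huα
    refine ⟨Fin.snoc (α := fun _ => ℝ) (fun _ => α) (1 - ((u : ℝ) - 1) * α), ?_, ?_, ?_⟩
    · intro i
      refine Fin.lastCases ?_ (fun i => ?_) i
      · rw [Fin.snoc_last]; exact hb
      · rw [Fin.snoc_castSucc]; exact hα
    · intro j
      have htot : ∑ i, (Fin.snoc (α := fun _ => ℝ) (fun _ : Fin u => α) (1 - ((u : ℝ) - 1) * α) : Fin (u + 1) → ℝ) i =
          1 + α := by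
        rw [Fin.sum_univ_castSucc]
        simp only [Fin.snoc_castSucc, Fin.snoc_last, Finset.sum_const, card_univ, Fintype.card_fin, nsmul_eq_mul]
        ring
      have h2 := Finset.sum_erase_eq_sub (f := (Fin.snoc (α := fun _ => ℝ) (fun _ : Fin u => α)
        (1 - ((u : ℝ) - 1) * α) : Fin (u + 1) → ℝ)) (mem_univ j)
      rw [h2, htot]
      refine Fin.lastCases ?_ (fun i => ?_) j
      · rw [Fin.snoc_last]
        linarith
      · rw [Fin.snoc_castSucc]
        linarith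
    · unfold rat1
      rw [Fin.sum_univ_castSucc, Fin.sum_univ_castSucc]
      simp only [Fin.snoc_castSucc, Fin.snoc_last, Finset.sum_const, card_univ, Fintype.card_fin, nsmul_eq_mul]
      congr 2
      ring
  have hbdd : BddAbove A := by
    refine ⟨1, ?_⟩
    rintro r ⟨y, hy, hsum, rfl⟩
    have hy1 : ∀ i, y i ≤ 1 := by
      intro i
      obtain ⟨j, hj⟩ : ∃ j : Fin (u + 1), j ≠ i := by
        haveI : Nontrivial (Fin (u + 1)) := Fin.nontrivial_iff_two_le.2 (by omega)
        exact exists_ne i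
      refine le_trans ?_ (hsum j)
      exact Finset.single_le_sum (f := y) (fun k _ => (hy k).le) (mem_erase.2 ⟨hj.symm, mem_univ i⟩)
    have hden : 0 < ∑ i, 1 / y i := Finset.sum_pos (fun i _ => by have := hy i; positivity) univ_nonempty
    rw [div_le_one hden]
    refine Finset.sum_le_sum fun i _ => ?_
    have h1 : y i ^ (m + 2 - 1) ≤ 1 := pow_le_one₀ (hy i).le (hy1 i)
    have h2 : 1 ≤ 1 / y i := by
      rw [le_div_iff₀ (hy i)]
      linarith [hy1 i]
    linarith
  have hne1 : rat1 u (m + 2) (1 / u) ∈ A1 := ⟨1 / u, by positivity, by field_simp; exact le_rfl, rfl⟩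
  have hb1 : 0 < 1 - ((u : ℝ) - 1) * (1 / u) := by
    have : 1 - ((u : ℝ) - 1) * (1 / u) = 1 / u := by field_simp; ring
    rw [this]
    positivity
  have hbdd1 : BddAbove A1 := hbdd.mono hsub
  set R : ℝ := sSup A1 with hR
  have hR0 : 0 < R := by
    refine lt_of_lt_of_le ?_ (le_csSup hbdd1 hne1)
    unfold rat1
    positivity
  refine le_antisymm ?_ ?_
  · rw [hkap]
    refine csSup_le ⟨_, hsub hne1⟩ ?_
    rintro r ⟨y, hy, hsum, rfl⟩
    have hden : 0 < ∑ i, 1 / y i := Finset.sum_pos (fun i _ => by have := hy i; positivity) univ_nonempty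
    rw [div_le_iff₀ hden]
    obtain ⟨c0, _, hconc, hconv⟩ := split m hR0
    have h := reduce hu hconc hconv (psi_mono m hR0.le) (by
      intro α hα huα
      have hb := hβ α hα huα
      have h1 : rat1 u (m + 2) α ≤ R := le_csSup hbdd1 ⟨α, hα, huα, rfl⟩
      unfold rat1 at h1
      have hpos : 0 < (u : ℝ) / α + 1 / (1 - ((u : ℝ) - 1) * α) := by positivity
      rw [div_le_iff₀ hpos, show m + 2 - 1 = m + 1 by omega] at h1
      unfold psi
      have e : (u : ℝ) * (α ^ (m + 1) - R / α) + ((1 - ((u : ℝ) - 1) * α) ^ (m + 1) -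
          R / (1 - ((u : ℝ) - 1) * α)) = ((u : ℝ) * α ^ (m + 1) + (1 - ((u : ℝ) - 1) * α) ^ (m + 1)) -
          R * ((u : ℝ) / α + 1 / (1 - ((u : ℝ) - 1) * α)) := by ring
      rw [e]
      linarith) y hy hsum
    unfold psi at h
    rw [Finset.sum_sub_distrib] at h
    have e : ∑ i, R / y i = R * ∑ i, 1 / y i := by
      rw [Finset.mul_sum]
      exact Finset.sum_congr rfl fun i _ => by ring
    rw [e] at h
    rw [show m + 2 - 1 = m + 1 by omega]
    linarith
  · rw [hkap]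
    exact csSup_le_csSup hbdd ⟨_, hne1⟩ hsub

end Pool.Agent.T2H08.KC
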