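import Pool.Agent.T2H08.KC.Defs
import Pool.Agent.H362R2.CM.Moon

/-! # Packages for the clique case of MP_5cc280_co

`clq V C s` (`Pool/Agent/H362R2/CM/Moon.lean`): the ordered `s`-cliques (functions `Fin s → α` with values in the finite set
`V`, pairwise in relation `C`). -/

set_option autoImplicit false

namespace Pool.Agent.T2H08.KC

open Finset Pool.Agent.H362R2.CM Filter Topology

/-- CPY. Copies of `K_t` are `t`-cliques. The map `K ↦ K.verts` is a bijection from the subgraphs isomorphic to `K_t` to the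
`t`-cliques: an isomorphism with `⊤` shows that `K.verts` has `t` elements and that any two distinct vertices of `K` are
adjacent in `K` (hence in `G`), and `K` is determined by `K.verts` (adjacent in `K` iff both in `K.verts` and distinct). -/
def S_CPY : Prop := ∀ (n t : ℕ) (G : SimpleGraph (Fin n)), num (⊤ : SimpleGraph (Fin t)) G = kc G t

/-- ORD. Ordered cliques: each `s`-clique has `s!` orderings (the ordered cliques are injective as `G.Adj` is irreflexive;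
fibres of `f ↦ image f univ`: for a clique `S` the bijections `Fin s ≃ S`). -/
def S_ORD : Prop := ∀ (n s : ℕ) (G : SimpleGraph (Fin n)),
  (clq (univ : Finset (Fin n)) G.Adj s).card = s.factorial * kc G s

open Classical in
/-- LNK. Ordered `(s+1)`-cliques are a vertex (the value at `0`) and an ordered `s`-clique in its neighbourhood.
(Use `clq_succ_iff` with `i = 0` or `Fin.consEquiv`.) -/
def S_LNK : Prop := ∀ (n s : ℕ) (G : SimpleGraph (Fin n)),
  (clq (univ : Finset (Fin n)) G.Adj (s + 1)).card =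
    ∑ v : Fin n, (clq (univ.filter (fun w => G.Adj v w)) G.Adj s).card

/-- RAT. In a graph on `m` vertices without `K_{r+1}` one has `k_{j+1} ≤ (r-j) m k_j / (r (j+1))` for `1 ≤ j ≤ r`; ordered
version. Proof: downward induction on `j`. `j = r`: the left side is `0`. Step from `s+1` to `s` (`1 ≤ s`, `s + 1 ≤ r`): `a, b, c` the
numbers of ordered `s, s+1, s+2`-cliques, `v = |V|`; `moon_moser` gives `(s+1) b^2 ≤ a (s c + v b)` and the induction hypothesis
`r c ≤ (r-s-1) v b`, so `r (s+1) b^2 ≤ a v b (s (r-s-1) + r) = a v b (s+1)(r-s)`; divide by `(s+1) b` (`b = 0` trivial). -/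
def S_RAT : Prop := ∀ (α : Type) (V : Finset α) (C : α → α → Prop), (∀ x y, C x y → C y x) →
  ∀ r : ℕ, clq V C (r + 1) = ∅ → ∀ j : ℕ, 1 ≤ j → j ≤ r →
    (r : ℝ) * ((clq V C (j + 1)).card : ℝ) ≤ ((r : ℝ) - j) * (V.card : ℝ) * ((clq V C j).card : ℝ)

/-- UB (from ORD, LNK, RAT). Proof: `r = ω - 1`; each neighbourhood `V = N(v)` has at most `Δ` elements and contains no ordered
`ω`-clique (with `v` it would be an `(ω+1)`-clique), so RAT with `j = s - 1` gives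
`(ω-1) |clq N(v) s| ≤ (ω-s) Δ |clq N(v) (s-1)|`; sum over `v` (LNK): `(ω-1) (s+1)! k_{s+1} ≤ (ω-s) Δ s! k_s` (ORD). -/
def S_UB : Prop := ∀ (n Δ ω s : ℕ) (G : SimpleGraph (Fin n)), Adm Δ ω G → 2 ≤ s → s ≤ ω →
  ((s : ℝ) + 1) * ((ω : ℝ) - 1) * (kc G (s + 1) : ℝ) ≤ ((ω : ℝ) - s) * (Δ : ℝ) * (kc G s : ℝ)

/-- PRD (from UB). Product of the inequalities for `s = u, …, t-1`. (Induction on `t`; `Nat.choose_succ_right_eq`:
`C(ω,s+1) (s+1) = C(ω,s) (ω-s)`.) -/
def S_PRD : Prop := ∀ (n Δ ω u t : ℕ) (G : SimpleGraph (Fin n)), Adm Δ ω G → 2 ≤ u → u ≤ t → t ≤ ω →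
  (kc G t : ℝ) ≤ ((ω.choose t : ℝ) / (ω.choose u : ℝ)) * ((Δ : ℝ) / ((ω : ℝ) - 1)) ^ (t - u) * (kc G u : ℝ)

/-- TUR. The complete `ω`-partite graph with parts of size `q`: for instance `G.Adj (a,b) (a',b') ↔ a ≠ a'` on
`Fin ω × Fin q` (`SimpleGraph.completeEquipartiteGraph` may help), transported to `Fin n` (`Fintype.equivFin`). Degrees
`(ω-1) q`; a `j`-clique is a `j`-subset `S` of `Fin ω` with a function `S → Fin q`. -/
def S_TUR : Prop := ∀ ω q : ℕ, ∃ (n : ℕ) (G : SimpleGraph (Fin n)), Adm ((ω - 1) * q) ω G ∧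
  ∀ j : ℕ, kc G j = ω.choose j * q ^ j

/-- UNI. Disjoint unions (`SimpleGraph.Sum`, `G ⊕g H` on `Fin n ⊕ Fin m`, transported by `finSumFinEquiv`): for `j ≥ 1` a
`j`-clique is nonempty and contained in one of the two parts. -/
def S_UNI : Prop := ∀ (n m : ℕ) (G : SimpleGraph (Fin n)) (H : SimpleGraph (Fin m)),
  ∃ K : SimpleGraph (Fin (n + m)), (∀ Δ ω : ℕ, Adm Δ ω G → Adm Δ ω H → Adm Δ ω K) ∧
    ∀ j : ℕ, 1 ≤ j → kc K j = kc G j + kc H j

/-- LIM. Fekete's lemma for a superadditive sequence with bounds (`Subadditive.tendsto_lim` in Mathlib applied to `-e`;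
`B ≤ e(p₀)/p₀ ≤ sup = lim`). -/
def S_LIM : Prop := ∀ (e : ℕ → ℝ) (A B : ℝ) (p₀ : ℕ), (∀ p q, e p + e q ≤ e (p + q)) → (∀ p, e p ≤ A * p) →
  0 < p₀ → B * p₀ ≤ e p₀ → ∃ c : ℝ, Tendsto (fun p : ℕ => e p / p) atTop (𝓝 c) ∧ B ≤ c ∧ c ≤ A

/-- ASY. Squeeze: `⌊Δ/w⌋ / (Δ/w) → 1` and powers. -/
def S_ASY : Prop := ∀ (w k : ℕ) (F : ℝ) (c : ℕ → ℝ), 1 ≤ w → 0 < F →
  (∀ᶠ D : ℕ in atTop, F * ((D / w : ℕ) : ℝ) ^ k ≤ c D ∧ c D ≤ F * ((D : ℝ) / w) ^ k) →
  Tendsto (fun D : ℕ => c D / (F * ((D : ℝ) / w) ^ k)) atTop (𝓝 1)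

end Pool.Agent.T2H08.KC
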