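import Pool.Agent.T2H08.KC.Defs2

/-! # Packages for the case `ω = u + 1` (all graphs `H`) of MP_5cc280_co -/

set_option autoImplicit false

namespace Pool.Agent.T2H08.KC

open Finset Filter Topology

/-- CPB. Copies of `K_u` joined with `s ≥ 2` independent vertices: `K ↦ (Q, S)`, `Q` the vertices of `K` that are adjacent in
`K` to all other vertices of `K`, `S` the other vertices of `K`, is a bijection from the subgraphs of `G` isomorphic to
`joinKI u s` to the pairs (`u`-clique `Q`, `s`-element set `S` of common neighbours of `Q`); `K` is determined by `(Q,S)`: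
adjacent in `K` iff distinct, both in `Q ∪ S` and at least one in `Q`. -/
def S_CPB : Prop := ∀ (n u s : ℕ) (G : SimpleGraph (Fin n)), 2 ≤ s → num (joinKI u s) G = ww G u s

/-- CON. In a graph without `K_{u+2}` with degrees at most `Δ`: for a `(u+1)`-clique `K` and `w ∈ K` put
`x_w = cn G (K.erase w)`. These numbers are at least `1` (`w` itself) and for every `v ∈ K` the sum of `x_w` over `w ≠ v` is at most
`Δ`: the sets of common neighbours of `K.erase w` are pairwise disjoint (a common element would be adjacent to all of `K`)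
and for `w ≠ v` contained in the neighbourhood of `v`. -/
def S_CON : Prop := ∀ (n Δ u : ℕ) (G : SimpleGraph (Fin n)), Adm Δ (u + 1) G →
  ∀ K : Finset (Fin n), G.IsNClique (u + 1) K →
    (∀ w ∈ K, 1 ≤ cn G (K.erase w)) ∧ ∀ v ∈ K, ∑ w ∈ K.erase v, cn G (K.erase w) ≤ Δ

open Classical in
/-- DBL. Double counting of the pairs (`u`-clique `Q`, vertex `w` adjacent to all of `Q`), i.e. (`(u+1)`-clique `K`, `w ∈ K`),
`K = insert w Q`: for every function `g`,
the sum over the `(u+1)`-cliques `K` and `w ∈ K` of `g (cn (K.erase w))` is the sum over the `u`-cliques `Q` of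
`cn Q * g (cn Q)`. -/
def S_DBL : Prop := ∀ (n u : ℕ) (G : SimpleGraph (Fin n)) (g : ℕ → ℝ),
  ∑ K ∈ univ.filter (fun K : Finset (Fin n) => G.IsNClique (u + 1) K), ∑ w ∈ K, g (cn G (K.erase w)) =
    ∑ Q ∈ univ.filter (fun Q : Finset (Fin n) => G.IsNClique u Q), (cn G Q : ℝ) * g (cn G Q)

/-- UBB (from CON, DBL). Proof: for each `(u+1)`-clique `K` the numbers `x_w = cn (K.erase w)`, `w ∈ K` (indexed by
`Fin (u+1)` through a bijection `Fin (u+1) ≃ K`) are feasible, so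
`∑_w C(x_w,s)/x_w ≤ M ∑_w 1/x_w`. Sum over `K`, DBL with `g x = C(x,s)/x` and `g x = 1/x`:
`∑_{Q, cn Q > 0} C(cn Q, s) ≤ M #{Q : cn Q > 0} ≤ M k_u` (`1 ≤ s`, so the terms with `cn Q = 0` are `0`; `M ≥ 0` is assumed). -/
def S_UBB : Prop := ∀ (n Δ u s : ℕ) (G : SimpleGraph (Fin n)) (M : ℝ), Adm Δ (u + 1) G → 1 ≤ s → 0 ≤ M →
  (∀ x : Fin (u + 1) → ℕ, Feas u Δ x →
    ∑ i, ((x i).choose s : ℝ) / (x i : ℝ) ≤ M * ∑ i, 1 / (x i : ℝ)) → (ww G u s : ℝ) ≤ M * (kc G u : ℝ)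

/-- MPT. The complete `(u+1)`-partite graph with parts of sizes `x i`: vertices `Σ i, Fin (x i)`, adjacent iff the first
components differ, transported to `Fin n`. A `u`-clique misses exactly one part `i` (choose one vertex in each other part), its
common neighbours are the part `i`. -/
def S_MPT : Prop := ∀ (u Δ : ℕ) (x : Fin (u + 1) → ℕ), Feas u Δ x →
  ∃ (n : ℕ) (G : SimpleGraph (Fin n)), Adm Δ (u + 1) G ∧ kc G u = ∑ i, ∏ j ∈ univ.erase i, x j ∧
    ∀ s : ℕ, ww G u s = ∑ i, (∏ j ∈ univ.erase i, x j) * (x i).choose s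

/-- UN2. Disjoint unions (as UNI): for `u ≥ 1` a `u`-clique lies in one of the two parts and so do its common neighbours. -/
def S_UN2 : Prop := ∀ (n m : ℕ) (G : SimpleGraph (Fin n)) (H : SimpleGraph (Fin m)),
  ∃ K : SimpleGraph (Fin (n + m)), (∀ Δ ω : ℕ, Adm Δ ω G → Adm Δ ω H → Adm Δ ω K) ∧
    (∀ j : ℕ, 1 ≤ j → kc K j = kc G j + kc H j) ∧ ∀ u s : ℕ, 1 ≤ u → ww K u s = ww G u s + ww H u s

/-- ATT. For `1 ≤ u ≤ Δ` the set of feasible `x` is finite and not empty, so the maximum is attained. (`x i ≤ Δ` as `u ≥ 1`;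
`x = 1` is feasible.) -/
def S_ATT : Prop := ∀ u s Δ : ℕ, 1 ≤ u → u ≤ Δ →
  (∃ x, Feas u Δ x ∧ rat u s x = mx u s Δ) ∧ ∀ x, Feas u Δ x → rat u s x ≤ mx u s Δ

/-- ASB. Asymptotics. Upper bound: `C(x,s) ≤ x^s/s!`, so with `y = x/Δ` `rat x ≤ (Δ^s/s!) (∑ y^(s-1))/(∑ 1/y) ≤ (Δ^s/s!) kap`
(the set in `kap` is bounded above by `(u+1)`: `y i ≤ 1`, `∑ 1/y ≥ 1`). Lower bound: for a feasible real `y` and large `Δ` put
`x i = ⌊Δ y i⌋`: feasible, and `rat x / (Δ^s/s!) → (∑ y^(s-1))/(∑ 1/y)`. -/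
def S_ASB : Prop := ∀ u s : ℕ, 1 ≤ u → 1 ≤ s → 0 < kap u s ∧
  Tendsto (fun D : ℕ => mx u s D / (kap u s * (D : ℝ) ^ s / (s.factorial : ℝ))) atTop (𝓝 1)

end Pool.Agent.T2H08.KC
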